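import Pool.Agent.helper72.MC.EvalC

set_option autoImplicit false

namespace Pool.Agent.helper72.MC

open Nat.Partrec (Code)

theorem computable_lab' : Computable (fun n : ℕ => 5 ^ (n + 3)) := by
  have h1 : Primrec (fun n : ℕ => 5 ^ n) := by
    have : Primrec₂ (fun (_ : ℕ) (p : ℕ × ℕ) => 5 * p.2) :=
      (Primrec.nat_mul.comp (Primrec.const 5) (Primrec.snd.comp Primrec.snd)).to₂
    have h2 := Primrec.nat_rec' (f := fun n : ℕ => n) (g := fun _ => 1) (Primrec.id)
      (Primrec.const 1) this
    refine h2.of_eq (fun n => ?_)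
    induction n with
    | zero => rfl
    | succ n ih =>
      simp only at ih ⊢
      rw [ih, pow_succ, mul_comm]
  exact (h1.comp (Primrec.nat_add.comp Primrec.id (Primrec.const 3))).to_comp

theorem exists_undec' : ∃ c : Code, ¬ ComputablePred (fun n : ℕ => (c.eval n).Dom) := by
  have hp : Partrec (fun n : ℕ => Code.eval (Denumerable.ofNat Code n) 0) :=
    Code.eval_part.comp (Computable.ofNat Code) (Computable.const 0)
  obtain ⟨c, hc⟩ := Code.exists_code.mp (Partrec.nat_iff.mp hp)
  refine ⟨c, fun h => ?_⟩
  have h2 : ComputablePred (fun d : Code => (Code.eval d 0).Dom) := by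
    refine ComputablePred.computable_of_manyOneReducible (q := fun n : ℕ => (c.eval n).Dom)
      ⟨fun d => Encodable.encode d, Computable.encode, fun d => ?_⟩ h
    rw [hc]
    simp
  exact ComputablePred.halting_problem 0 h2

end Pool.Agent.helper72.MC
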