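import Pool.Agent.helper86.MC.Circ

set_option autoImplicit false

namespace Pool.Agent.helper72.MC

/-- A family of sets of naturals that is given by one circuit term with a parameter. -/
def Def (f : ℕ → Set ℕ) : Prop := ∃ e : Ex, ∀ v, e.val v = f v

/-- elementwise sum -/
def sadd (A B : Set ℕ) : Set ℕ := {n | ∃ x ∈ A, ∃ y ∈ B, n = x + y}
/-- elementwise product -/
def smul (A B : Set ℕ) : Set ℕ := {n | ∃ x ∈ A, ∃ y ∈ B, n = x * y}

lemma mem_sadd {A B : Set ℕ} {n : ℕ} : n ∈ sadd A B ↔ ∃ x ∈ A, ∃ y ∈ B, n = x + y := Iff.rfl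
lemma mem_smul {A B : Set ℕ} {n : ℕ} : n ∈ smul A B ↔ ∃ x ∈ A, ∃ y ∈ B, n = x * y := Iff.rfl

lemma Def.sing (k : ℕ) : Def (fun _ => {k}) := ⟨.lit k, fun _ => rfl⟩
lemma Def.param : Def (fun v => {v}) := ⟨.par, fun _ => rfl⟩
lemma Def.union {f g : ℕ → Set ℕ} (hf : Def f) (hg : Def g) : Def (fun v => f v ∪ g v) := by
  obtain ⟨a, ha⟩ := hf; obtain ⟨b, hb⟩ := hg
  exact ⟨.un a b, fun v => by simp [Ex.val, ha, hb]⟩
lemma Def.inter {f g : ℕ → Set ℕ} (hf : Def f) (hg : Def g) : Def (fun v => f v ∩ g v) := by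
  obtain ⟨a, ha⟩ := hf; obtain ⟨b, hb⟩ := hg
  exact ⟨.it a b, fun v => by simp [Ex.val, ha, hb]⟩
lemma Def.compl {f : ℕ → Set ℕ} (hf : Def f) : Def (fun v => (f v)ᶜ) := by
  obtain ⟨a, ha⟩ := hf
  exact ⟨.co a, fun v => by simp [Ex.val, ha]⟩
lemma Def.add {f g : ℕ → Set ℕ} (hf : Def f) (hg : Def g) : Def (fun v => sadd (f v) (g v)) := by
  obtain ⟨a, ha⟩ := hf; obtain ⟨b, hb⟩ := hg
  exact ⟨.ad a b, fun v => by simp [Ex.val, ha, hb, sadd]⟩
lemma Def.mul {f g : ℕ → Set ℕ} (hf : Def f) (hg : Def g) : Def (fun v => smul (f v) (g v)) := by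
  obtain ⟨a, ha⟩ := hf; obtain ⟨b, hb⟩ := hg
  exact ⟨.mu a b, fun v => by simp [Ex.val, ha, hb, smul]⟩
lemma Def.diff {f g : ℕ → Set ℕ} (hf : Def f) (hg : Def g) : Def (fun v => f v \ g v) :=
  (hf.inter hg.compl)
lemma Def.congr {f g : ℕ → Set ℕ} (hf : Def f) (h : ∀ v, f v = g v) : Def g := by
  obtain ⟨a, ha⟩ := hf
  exact ⟨a, fun v => by rw [ha, h]⟩
lemma Def.univ : Def (fun _ => Set.univ) :=
  ((Def.sing 0).union (Def.sing 0).compl).congr (fun _ => Set.union_compl_self _)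
lemma Def.empty : Def (fun _ => ∅) :=
  Def.univ.compl.congr (fun _ => Set.compl_univ)

/-- numbers congruent to `c` modulo `q`, at least `c` -/
lemma Def.prog (q c : ℕ) : Def (fun _ => {n | ∃ k, n = q * k + c}) := by
  refine (((Def.sing q).mul Def.univ).add (Def.sing c)).congr ?_
  intro v
  ext n
  simp only [mem_sadd, mem_smul, Set.mem_ofPred_eq, Set.mem_singleton_iff, Set.mem_univ]
  constructor
  · rintro ⟨x, ⟨y, rfl, z, -, rfl⟩, w, rfl, rfl⟩
    exact ⟨z, rfl⟩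
  · rintro ⟨k, rfl⟩
    exact ⟨q * k, ⟨q, rfl, k, trivial, rfl⟩, c, rfl, rfl⟩

lemma Def.primes : Def (fun _ => {p | p.Prime}) := by
  have h1 : Def (fun _ => {n : ℕ | 2 ≤ n}) := by
    refine ((Def.sing 0).union (Def.sing 1)).compl.congr ?_
    intro v; ext n
    simp only [Set.mem_compl_iff, Set.mem_union, Set.mem_singleton_iff, Set.mem_ofPred_eq]
    omega
  refine (h1.diff (h1.mul h1)).congr ?_
  intro v; ext n
  simp only [Set.mem_sdiff, Set.mem_ofPred_eq, mem_smul]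
  constructor
  · rintro ⟨h2, h⟩
    rw [Nat.prime_def]
    refine ⟨h2, fun m hm => ?_⟩
    obtain ⟨k, rfl⟩ := hm
    by_contra hcon
    push_neg at hcon
    apply h
    have hm0 : m ≠ 0 := by rintro rfl; simp at h2
    have hk0 : k ≠ 0 := by rintro rfl; simp at h2
    have hk1 : k ≠ 1 := by rintro rfl; simp at hcon
    exact ⟨m, by omega, k, by omega, rfl⟩
  · intro hp
    refine ⟨hp.two_le, ?_⟩
    rintro ⟨x, hx, y, hy, rfl⟩
    exact Nat.not_prime_mul (by omega) (by omega) hp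

/-- powers of `g` -/
def pw (g : ℕ) : Set ℕ := {n | ∃ e, n = g ^ e}

/-- numbers not divisible by `g` -/
def cop (g : ℕ) : Set ℕ := {n | ¬ g ∣ n}

lemma Def.cop (g : ℕ) : Def (fun _ => cop g) := by
  refine ((Def.sing g).mul Def.univ).compl.congr ?_
  intro v; ext n
  simp only [Set.mem_compl_iff, mem_smul, Set.mem_singleton_iff, Set.mem_univ, MC.cop,
    Set.mem_ofPred_eq, not_iff_not]
  constructor
  · rintro ⟨x, rfl, y, -, rfl⟩
    exact Dvd.intro y rfl
  · rintro ⟨y, rfl⟩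
    exact ⟨g, rfl, y, trivial, rfl⟩

lemma Def.pw {g : ℕ} (hg : g.Prime) : Def (fun _ => pw g) := by
  refine (((Def.primes.diff (Def.sing g)).mul Def.univ).compl).congr ?_
  intro v; ext n
  simp only [Set.mem_compl_iff, mem_smul, Set.mem_sdiff, Set.mem_ofPred_eq, Set.mem_singleton_iff,
    Set.mem_univ, MC.pw]
  constructor
  · intro h
    have hn0 : n ≠ 0 := by
      rintro rfl
      apply h
      by_cases h2 : g = 2
      · exact ⟨3, ⟨Nat.prime_three, by omega⟩, 0, trivial, rfl⟩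
      · exact ⟨2, ⟨Nat.prime_two, fun h => h2 h.symm⟩, 0, trivial, rfl⟩
    refine ⟨n.factorization g, ?_⟩
    apply Nat.eq_pow_of_factorization_eq_single hn0
    ext p
    by_cases hp : p = g
    · subst hp; simp
    · rw [Finsupp.single_eq_of_ne hp]
      by_contra hc
      have hpp : p ∈ n.primeFactors := by
        rw [← Nat.support_factorization]
        exact Finsupp.mem_support_iff.mpr hc
      have hpr := Nat.prime_of_mem_primeFactors hpp
      obtain ⟨y, hy⟩ := Nat.dvd_of_mem_primeFactors hpp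
      exact h ⟨p, ⟨hpr, hp⟩, y, trivial, hy⟩
  · rintro ⟨e, rfl⟩ ⟨p, ⟨hp, hpg⟩, y, -, hy⟩
    have : p ∣ g ^ e := ⟨y, hy⟩
    have := hp.dvd_of_dvd_pow this
    exact hpg ((Nat.prime_dvd_prime_iff_eq hp hg).mp this)

/-- finite unions over an initial segment -/
lemma Def.iUnionLt (m : ℕ) (f : ℕ → ℕ → Set ℕ) (h : ∀ i < m, Def (f i)) :
    Def (fun v => {n | ∃ i < m, n ∈ f i v}) := by
  induction m with
  | zero => exact Def.empty.congr (fun v => by ext n; simp)
  | succ m ih =>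
    refine ((ih (fun i hi => h i (by omega))).union (h m (by omega))).congr ?_
    intro v; ext n
    simp only [Set.mem_union, Set.mem_ofPred_eq]
    constructor
    · rintro (⟨i, hi, hn⟩ | hn)
      · exact ⟨i, by omega, hn⟩
      · exact ⟨m, by omega, hn⟩
    · rintro ⟨i, hi, hn⟩
      by_cases him : i = m
      · subst him; exact Or.inr hn
      · exact Or.inl ⟨i, by omega, hn⟩

lemma Def.iInterLt (m : ℕ) (f : ℕ → ℕ → Set ℕ) (h : ∀ i < m, Def (f i)) :
    Def (fun v => {n | ∀ i < m, n ∈ f i v}) := by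
  refine (Def.iUnionLt m (fun i v => (f i v)ᶜ) (fun i hi => (h i hi).compl)).compl.congr ?_
  intro v; ext n
  simp

end Pool.Agent.helper72.MC
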