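import Pool.Agent.helper72.MC.Sol

set_option autoImplicit false

namespace Pool.Agent.helper72.MC

open Finset

/-- a number with prescribed facts and prescribed top registers -/
lemma exists_node (q : ℕ) (B : Bases (2 ^ q)) (m K A : ℕ) (hm : ∀ τ < m, 2 * τ + 5 < 2 ^ q)
    (F : ℕ → ℕ → ℕ → Prop) (hF : ∀ τ x y, F τ x y → τ < m ∧ x ≤ A ∧ y ≤ A) :
    ∃ N, N ≠ 0 ∧ (∀ τ x y, Fct (2 ^ q) N τ x y ↔ F τ x y) ∧
      (∀ i < K, N.factorization (B.g i) = 5 ^ A ∧ N.factorization (B.h i) = 7 ^ A) := by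
  classical
  have hex : ∀ t : ℕ × ℕ × ℕ, ∃ p, t.1 < m → p.Prime ∧ Rp 5 1 t.2.1 p ∧ Rp 7 1 t.2.2 p ∧
      p % 2 ^ q = 2 * t.1 + 5 := by
    rintro ⟨τ, x, y⟩
    by_cases hτ : τ < m
    · obtain ⟨p, -, hp⟩ := exists_prime q 1 1 x y (2 * τ + 5) 0 (by omega) (hm τ hτ)
      exact ⟨p, fun _ => hp⟩
    · exact ⟨0, fun h => (hτ h).elim⟩
  choose P hP using hex
  let S : Finset (ℕ × ℕ × ℕ) := (range m ×ˢ range (A + 1) ×ˢ range (A + 1)).filter
    (fun t => F t.1 t.2.1 t.2.2)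
  have hS : ∀ t : ℕ × ℕ × ℕ, t ∈ S ↔ F t.1 t.2.1 t.2.2 := by
    rintro ⟨τ, x, y⟩
    simp only [S, mem_filter, mem_product, mem_range]
    constructor
    · exact fun h => h.2
    · intro h
      have := hF _ _ _ h
      exact ⟨⟨this.1, by omega, by omega⟩, h⟩
  have hPS : ∀ t ∈ S, (P t).Prime ∧ Rp 5 1 t.2.1 (P t) ∧ Rp 7 1 t.2.2 (P t) ∧
      (P t) % 2 ^ q = 2 * t.1 + 5 := fun t ht => hP t (hF _ _ _ ((hS t).mp ht)).1
  let N1 := ∏ i ∈ range K, B.g i ^ (5 ^ A)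
  let N2 := ∏ i ∈ range K, B.h i ^ (7 ^ A)
  let N3 := ∏ t ∈ S, P t
  have n1 : ∀ r : ℕ, r.Prime → r ∣ N1 → ∃ i < K, r = B.g i := by
    intro r hr hd
    obtain ⟨i, hi, hd'⟩ := (hr.prime.dvd_finsetProd_iff _).mp hd
    exact ⟨i, mem_range.mp hi, (Nat.prime_dvd_prime_iff_eq hr (B.g_prime i)).mp (hr.dvd_of_dvd_pow hd')⟩
  have n2 : ∀ r : ℕ, r.Prime → r ∣ N2 → ∃ i < K, r = B.h i := by
    intro r hr hd
    obtain ⟨i, hi, hd'⟩ := (hr.prime.dvd_finsetProd_iff _).mp hd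
    exact ⟨i, mem_range.mp hi, (Nat.prime_dvd_prime_iff_eq hr (B.h_prime i)).mp (hr.dvd_of_dvd_pow hd')⟩
  have n3 : ∀ r : ℕ, r.Prime → r ∣ N3 → ∃ t ∈ S, r = P t := by
    intro r hr hd
    obtain ⟨t, ht, hd'⟩ := (hr.prime.dvd_finsetProd_iff _).mp hd
    exact ⟨t, ht, (Nat.prime_dvd_prime_iff_eq hr (hPS t ht).1).mp hd'⟩
  have z1 : N1 ≠ 0 := prod_ne_zero_iff.mpr (fun i _ => pow_ne_zero _ (B.g_prime i).ne_zero)
  have z2 : N2 ≠ 0 := prod_ne_zero_iff.mpr (fun i _ => pow_ne_zero _ (B.h_prime i).ne_zero)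
  have z3 : N3 ≠ 0 := prod_ne_zero_iff.mpr (fun t ht => (hPS t ht).1.ne_zero)
  refine ⟨N1 * N2 * N3, mul_ne_zero (mul_ne_zero z1 z2) z3, ?_, ?_⟩
  · intro τ x y
    constructor
    · rintro ⟨p, hp, hd, hx, hy, hQ⟩
      rcases hp.dvd_mul.mp hd with hd | hd
      · rcases hp.dvd_mul.mp hd with hd | hd
        · obtain ⟨i, -, hi⟩ := n1 p hp hd
          exact (B.ne_g hQ i hi).elim
        · obtain ⟨i, -, hi⟩ := n2 p hp hd
          exact (B.ne_h hQ i hi).elim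
      · obtain ⟨t, ht, rfl⟩ := n3 p hp hd
        obtain ⟨-, h1, h2, h3⟩ := hPS t ht
        have e1 : x = t.2.1 := Rp.uniq prime5 (by norm_num) hx h1
        have e2 : y = t.2.2 := Rp.uniq prime7 (by norm_num) hy h2
        have e3 : τ = t.1 := by omega
        rw [e1, e2, e3]
        exact (hS t).mp ht
    · intro h
      have ht : ((τ, x, y) : ℕ × ℕ × ℕ) ∈ S := (hS _).mpr h
      obtain ⟨h0, h1, h2, h3⟩ := hPS _ ht
      exact ⟨P (τ, x, y), h0, Dvd.dvd.mul_left (dvd_prod_of_mem P ht) _, h1, h2, h3⟩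
  · intro j hj
    have hgP : ∀ t ∈ S, B.g j ≠ P t := fun t ht h => B.ne_g (hPS t ht).2.2.2 j h.symm
    have hhP : ∀ t ∈ S, B.h j ≠ P t := fun t ht h => B.ne_h (hPS t ht).2.2.2 j h.symm
    constructor
    · have hsplit : B.g j ^ (5 ^ A) * ∏ i ∈ (range K).erase j, B.g i ^ (5 ^ A) = N1 :=
        mul_prod_erase (range K) (fun i => B.g i ^ (5 ^ A)) (mem_range.mpr hj)
      refine fact_of_eq (B.g_prime j) (c := (∏ i ∈ (range K).erase j, B.g i ^ (5 ^ A)) * N2 * N3) ?_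
        (by rw [← hsplit]; ring)
      refine not_dvd_mul3 (B.g_prime j) ?_ ?_ ?_
      · intro hd
        obtain ⟨i, hi, hd'⟩ := ((B.g_prime j).prime.dvd_finsetProd_iff _).mp hd
        have := (Nat.prime_dvd_prime_iff_eq (B.g_prime j) (B.g_prime i)).mp
          ((B.g_prime j).dvd_of_dvd_pow hd')
        exact (mem_erase.mp hi).1 (B.g_inj this).symm
      · intro hd
        obtain ⟨i, -, hi⟩ := n2 _ (B.g_prime j) hd
        exact B.g_ne_h j i hi
      · intro hd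
        obtain ⟨t, ht, hi⟩ := n3 _ (B.g_prime j) hd
        exact hgP t ht hi
    · have hsplit : B.h j ^ (7 ^ A) * ∏ i ∈ (range K).erase j, B.h i ^ (7 ^ A) = N2 :=
        mul_prod_erase (range K) (fun i => B.h i ^ (7 ^ A)) (mem_range.mpr hj)
      refine fact_of_eq (B.h_prime j) (c := (∏ i ∈ (range K).erase j, B.h i ^ (7 ^ A)) * N1 * N3) ?_
        (by rw [← hsplit]; ring)
      refine not_dvd_mul3 (B.h_prime j) ?_ ?_ ?_
      · intro hd
        obtain ⟨i, hi, hd'⟩ := ((B.h_prime j).prime.dvd_finsetProd_iff _).mp hd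
        have := (Nat.prime_dvd_prime_iff_eq (B.h_prime j) (B.h_prime i)).mp
          ((B.h_prime j).dvd_of_dvd_pow hd')
        exact (mem_erase.mp hi).1 (B.h_inj this).symm
      · intro hd
        obtain ⟨i, -, hi⟩ := n1 _ (B.h_prime j) hd
        exact B.g_ne_h i j hi.symm
      · intro hd
        obtain ⟨t, ht, hi⟩ := n3 _ (B.h_prime j) hd
        exact hhP t ht hi

theorem Sol_complete (q : ℕ) (B : Bases (2 ^ q)) (m n K A : ℕ) (Φ : ℕ → Fm) (G : Fm)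
    (hm : ∀ τ < m, 2 * τ + 5 < 2 ^ q)
    (hΦ : ∀ τ < m, (Φ τ).wf 2) (hG : G.wf 0) (hK : 2 ≤ K)
    (hd : ∀ τ < m, 2 + (Φ τ).depth ≤ K) (hdG : G.depth ≤ K)
    (F : ℕ → ℕ → ℕ → Prop) (hF : ∀ τ x y, F τ x y → τ < m ∧ x ≤ A ∧ y ≤ A)
    (hrule : ∀ τ x y, F τ x y → ∃ y0 x1, F 0 x y0 ∧ F 0 x1 y ∧
      (Φ τ).Holds n F 2 (asg x x1) (asg y0 y))
    (hgoal : G.Holds n F 0 (fun _ => 0) (fun _ => 0)) :
    (Sol B m Φ G (5 ^ (n + 3))).Nonempty := by
  obtain ⟨N, hN0, hFN, hfac⟩ := exists_node q B m K A hm F hF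
  have hFeq : Fct (2 ^ q) N = F := by
    funext τ x y; exact propext (hFN τ x y)
  have hfg : ∀ i < K, sv B i N = B.g i ^ (5 ^ A) := fun i hi => by
    unfold sv fp; rw [(hfac i hi).1]
  have hfh : ∀ i < K, tv B i N = B.h i ^ (7 ^ A) := fun i hi => by
    unfold tv fp; rw [(hfac i hi).2]
  have hsA : Rp 5 2 A (fp (B.g 0) N) := by
    have := hfg 0 (by omega); unfold sv at this; rw [this]; exact pow_reg (B.g_rp 0)
  have htA : Rp 7 2 A (fp (B.h 1) N) := by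
    have := hfh 1 (by omega); unfold tv at this; rw [this]; exact pow_reg (B.h_rp 1)
  refine ⟨N, ⟨⟨hN0, A, hsA⟩, ⟨hN0, A, htA⟩⟩, ?_, ?_⟩
  · intro τ hτ
    refine ⟨⟨?_, ?_⟩, ?_⟩
    · rintro ⟨-, -, p, ⟨hp, ⟨a, ha⟩, ⟨b, hb⟩, hpQ⟩, hpN, hC⟩
      have hFab : F τ a b := (hFN τ a b).mp ⟨p, hp, hpN, ha, hb, hpQ⟩
      exact hC ((rel_le prime5 le_rfl hsA ha).mpr (hF _ _ _ hFab).2.1)
    · rintro ⟨-, -, p, ⟨hp, ⟨a, ha⟩, ⟨b, hb⟩, hpQ⟩, hpN, hC⟩
      have hFab : F τ a b := (hFN τ a b).mp ⟨p, hp, hpN, ha, hb, hpQ⟩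
      exact hC ((rel_le prime7 (by norm_num) htA hb).mpr (hF _ _ _ hFab).2.2)
    · rintro ⟨M, ⟨⟨hM0, x, y, hx, hy, hFM⟩, hMJ⟩, e, f, hNM⟩
      have hx : Rp 5 2 x (sv B 0 M) := hx
      have hy : Rp 7 2 y (tv B 1 M) := hy
      apply hMJ
      have hFM' : Fct (2 ^ q) M = F := by
        rw [← hFeq, hNM]
        funext τ' a b; exact propext (Fct_lower B 0 1 e f M τ' a b).symm
      rw [hFM'] at hFM
      obtain ⟨y0, x1, h0, h1, hH⟩ := hrule τ x y hFM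
      have hfM : ∀ i < K, (i ≠ 0 → M.factorization (B.g i) = 5 ^ A) ∧
          (i ≠ 1 → M.factorization (B.h i) = 7 ^ A) := by
        intro i hi
        have hfi := hfac i hi
        rw [hNM, Nat.factorization_mul (mul_ne_zero hM0 (pow_ne_zero _ (B.g_prime 0).ne_zero))
          (pow_ne_zero _ (B.h_prime 1).ne_zero), Nat.factorization_mul hM0
          (pow_ne_zero _ (B.g_prime 0).ne_zero), (B.g_prime 0).factorization_pow,
          (B.h_prime 1).factorization_pow] at hfi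
        refine ⟨fun hi0 => ?_, fun hi1 => ?_⟩
        · have := hfi.1
          simpa [(B.g_ne_h i 1), (B.g_inj.ne hi0)] using this
        · have := hfi.2
          simpa [(B.g_ne_h 0 i).symm, (B.h_inj.ne hi1)] using this
      have hle1 : 5 ^ x1 ≤ M.factorization (B.g 1) := by
        rw [(hfM 1 (by omega)).1 (by norm_num)]
        exact Nat.pow_le_pow_right (by norm_num) (hF _ _ _ h1).2.1
      have hle0 : 7 ^ y0 ≤ M.factorization (B.h 0) := by
        rw [(hfM 0 (by omega)).2 (by norm_num)]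
        exact Nat.pow_le_pow_right (by norm_num) (hF _ _ _ h0).2.2
      obtain ⟨M', e', f', hM'0, hMM', hs1, ht0⟩ :=
        exists_lower (B.g_prime 1) (B.h_prime 0) (B.g_ne_h 1 0) hM0 hle1 hle0
      have hFM'' : Fct (2 ^ q) M' = F := by
        rw [← hFM', hMM']
        funext τ' a b; exact propext (Fct_lower B 1 0 e' f' M' τ' a b).symm
      have v0s : Rp 5 2 x (sv B 0 M') := by
        rw [hMM', sv_lower B hM'0 (by norm_num)] at hx; exact hx
      have v1t : Rp 7 2 y (tv B 1 M') := by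
        rw [hMM', tv_lower B hM'0 (by norm_num)] at hy; exact hy
      have v1s : Rp 5 2 x1 (sv B 1 M') := by
        unfold sv; rw [hs1]; exact pow_reg (B.g_rp 1)
      have v0t : Rp 7 2 y0 (tv B 0 M') := by
        unfold tv; rw [ht0]; exact pow_reg (B.h_rp 0)
      refine ⟨M', ⟨?_, ⟨hM'0, x, y0, v0s, v0t, by rw [hFM'']; exact h0⟩,
        ⟨hM'0, x1, y, v1s, v1t, by rw [hFM'']; exact h1⟩⟩, e', f', hMM'⟩
      refine complete B n A K (Φ τ) 2 M' (asg x x1) (asg y0 y) (hΦ τ hτ) (hd τ hτ) hM'0 ?_ ?_ ?_ ?_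
      · intro i hi
        have hi' : i = 0 ∨ i = 1 := by omega
        rcases hi' with rfl | rfl
        · exact ⟨v0s, v0t⟩
        · exact ⟨v1s, v1t⟩
      · intro i hi h2i
        have hi0 : i ≠ 0 := by omega
        have hi1 : i ≠ 1 := by omega
        have hM'f : M'.factorization (B.g i) = 5 ^ A ∧ M'.factorization (B.h i) = 7 ^ A := by
          have h1' := (hfM i hi).1 hi0
          have h2' := (hfM i hi).2 hi1
          rw [hMM', Nat.factorization_mul (mul_ne_zero hM'0 (pow_ne_zero _ (B.g_prime 1).ne_zero))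
            (pow_ne_zero _ (B.h_prime 0).ne_zero), Nat.factorization_mul hM'0
            (pow_ne_zero _ (B.g_prime 1).ne_zero), (B.g_prime 1).factorization_pow,
            (B.h_prime 0).factorization_pow] at h1' h2'
          constructor
          · simpa [(B.g_ne_h i 0), (B.g_inj.ne hi1)] using h1'
          · simpa [(B.g_ne_h 1 i).symm, (B.h_inj.ne hi0)] using h2'
        exact ⟨hM'f.1.ge, hM'f.2.ge⟩
      · intro a b hab
        rw [hFM''] at hab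
        exact (hF _ _ _ hab).2
      · rw [hFM'']; exact hH
  · refine complete B n A K G 0 N (fun _ => 0) (fun _ => 0) hG (by omega) hN0 (fun i hi => by omega) ?_ ?_ ?_
    · intro i hi _
      exact ⟨(hfac i hi).1.ge, (hfac i hi).2.ge⟩
    · intro a b hab
      rw [hFeq] at hab
      exact (hF _ _ _ hab).2
    · rw [hFeq]; exact hgoal

/-- **Encoding theorem.** The existence of a finite set of facts in which every fact is justified
according to the rules `Φ` and which satisfies the goal `G` is expressed by one circuit term with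
a parameter gate labelled `5 ^ (n + 3)`. -/
theorem encode (m : ℕ) (Φ : ℕ → Fm) (G : Fm) (hΦ : ∀ τ < m, (Φ τ).wf 2) (hG : G.wf 0) :
    ∃ e : Ex, ∀ n,
      (0 ∈ e.val (5 ^ (n + 3)) → ∃ F : ℕ → ℕ → ℕ → Prop,
        (∃ A, ∀ τ x y, F τ x y → x ≤ A) ∧
        (∀ τ < m, ∀ x y, F τ x y → ∃ y0 x1, F 0 x y0 ∧ F 0 x1 y ∧
          (Φ τ).Holds n F 2 (asg x x1) (asg y0 y)) ∧
        G.Holds n F 0 (fun _ => 0) (fun _ => 0)) ∧
      ((∃ (A : ℕ) (F : ℕ → ℕ → ℕ → Prop), (∀ τ x y, F τ x y → τ < m ∧ x ≤ A ∧ y ≤ A) ∧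
        (∀ τ x y, F τ x y → ∃ y0 x1, F 0 x y0 ∧ F 0 x1 y ∧
          (Φ τ).Holds n F 2 (asg x x1) (asg y0 y)) ∧
        G.Holds n F 0 (fun _ => 0) (fun _ => 0)) → 0 ∈ e.val (5 ^ (n + 3))) := by
  obtain ⟨B⟩ := exists_bases (m + 3) (by omega)
  have hQ : 0 < 2 ^ (m + 3) := by positivity
  obtain ⟨e, he⟩ := (Def.sing 0).mul (Def.Sol hQ B m Φ G)
  refine ⟨e, fun n => ?_⟩
  have h0 : 0 ∈ e.val (5 ^ (n + 3)) ↔ (Sol B m Φ G (5 ^ (n + 3))).Nonempty := by
    rw [he]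
    constructor
    · rintro ⟨x, -, N, hN, -⟩; exact ⟨N, hN⟩
    · rintro ⟨N, hN⟩; exact ⟨0, rfl, N, hN, (Nat.zero_mul N).symm⟩
  rw [h0]
  constructor
  · rintro ⟨N, hN⟩
    have hN0 : N ≠ 0 := hN.1.1.1
    refine ⟨_, ⟨N, ?_⟩, Sol_sound B m n Φ G hΦ hG hN⟩
    rintro τ x y ⟨p, hp, hpN, ⟨k, hk⟩, -, -⟩
    have h1 : p ≤ N := Nat.le_of_dvd (Nat.pos_of_ne_zero hN0) hpN
    have h2 : x < 5 ^ x := Nat.lt_pow_self (by norm_num)
    have h3 : 5 ^ x ≤ 5 ^ (x + 3) * (5 ^ 2 * k + 1) := by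
      calc 5 ^ x ≤ 5 ^ (x + 3) := Nat.pow_le_pow_right (by norm_num) (by omega)
        _ ≤ 5 ^ (x + 3) * (5 ^ 2 * k + 1) := Nat.le_mul_of_pos_right _ (by positivity)
    omega
  · rintro ⟨A, F, hF, hrule, hgoal⟩
    have hsup : ∀ m', ∃ K, ∀ τ < m', (Φ τ).depth ≤ K := by
      intro m'
      induction m' with
      | zero => exact ⟨0, fun τ hτ => by omega⟩
      | succ k ih =>
        obtain ⟨K, hK⟩ := ih
        refine ⟨max K (Φ k).depth, fun τ hτ => ?_⟩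
        rcases Nat.lt_succ_iff_lt_or_eq.mp hτ with h | rfl
        · exact le_trans (hK τ h) (le_max_left _ _)
        · exact le_max_right _ _
    obtain ⟨K, hK⟩ := hsup m
    have hpow : 2 * m + 5 < 2 ^ (m + 3) + 2 := by
      have : m < 2 ^ m := Nat.lt_two_pow_self
      have h8 : 2 ^ (m + 3) = 8 * 2 ^ m := by ring
      omega
    refine Sol_complete (m + 3) B m n (2 + K + G.depth) A Φ G (fun τ hτ => by omega) hΦ hG
      (by omega) (fun τ hτ => by have := hK τ hτ; omega) (by omega) F hF hrule hgoal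

end Pool.Agent.helper72.MC
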