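import Pool.Agent.helper72.MC.Comp

set_option autoImplicit false

namespace Pool.Agent.helper72.MC

open Nat.Partrec (Code)

/-- `x_i = y_j` -/
def eqv (i j : ℕ) : Fm := .fact 0 i false j false
/-- `x_i + 1 = y_j` -/
def sc (i j : ℕ) : Fm := .fact 0 i false j true
/-- a fact of type `τ` at `x_i`, `y_j` -/
def at' (τ i j : ℕ) : Fm := .fact τ i false j false

/-- rules for the evaluation facts -/
def codeRule : Code → Fm
  | .zero => .zt 1
  | .succ => sc 0 1
  | .left => at' 2 0 1
  | .right => at' 3 0 1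
  | .pair cf cg => .ex (.ex (.and (at' (4 + Encodable.encode cf) 0 2)
      (.and (at' (4 + Encodable.encode cg) 0 3) (.and (at' 2 1 2) (at' 3 1 3)))))
  | .comp cf cg => .ex (.and (at' (4 + Encodable.encode cg) 0 2)
      (at' (4 + Encodable.encode cf) 2 1))
  | .prec cf cg => .ex (.ex (.and (at' 2 0 2) (.and (at' 3 0 3) (.or
      (.and (.zt 3) (at' (4 + Encodable.encode cf) 2 1))
      (.ex (.ex (.ex (.ex (.ex (.and (sc 4 3) (.and (at' 2 5 2) (.and (at' 3 5 4)
        (.and (at' (4 + Encodable.encode (Code.prec cf cg)) 5 6) (.and (at' 2 7 4)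
        (.and (at' 3 7 6) (.and (at' 2 8 2) (.and (at' 3 8 7)
        (at' (4 + Encodable.encode cg) 8 1))))))))))))))))))
  | .rfind' cf => .ex (.ex (.and (at' 2 0 2) (.and (at' 3 0 3) (.or
      (.ex (.and (.zt 4) (.and (at' (4 + Encodable.encode cf) 0 4) (eqv 3 1))))
      (.ex (.ex (.ex (.ex (.and (sc 5 4) (.and (at' (4 + Encodable.encode cf) 0 4)
        (.and (sc 3 6) (.and (at' 2 7 2) (.and (at' 3 7 6)
        (at' (4 + Encodable.encode (Code.rfind' cf)) 7 1))))))))))))))

/-- rules for all types: 0 is the diagonal, 1 is `<`, 2 and 3 are the components of `unpair`. -/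
def rule : ℕ → Fm
  | 0 => .or (.and (.zs 0) (.zt 1)) (.fact 0 0 true 1 true)
  | 1 => .or (.and (.zs 0) (.ex (.fact 0 2 false 1 true))) (.fact 1 0 true 1 true)
  | 2 => .or (.and (.zs 0) (.zt 1)) (.ex (.ex (.ex (.and (sc 2 0) (.and (at' 2 2 3)
      (.and (at' 3 2 4) (.or (.and (sc 3 1) (at' 1 1 4)) (.or (.and (sc 3 4) (eqv 1 4))
      (.or (.and (at' 1 4 3) (eqv 3 1)) (.and (eqv 3 4) (.zt 1)))))))))))
  | 3 => .or (.and (.zs 0) (.zt 1)) (.ex (.ex (.ex (.and (sc 2 0) (.and (at' 2 2 3)
      (.and (at' 3 2 4) (.or (.ex (.and (sc 3 5) (.and (at' 1 5 4) (eqv 4 1))))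
      (.or (.and (sc 3 4) (.zt 1))
      (.or (.and (at' 1 4 3) (sc 4 1)) (.and (eqv 3 4) (sc 3 1)))))))))))
  | (τ + 4) => codeRule (Denumerable.ofNat Code τ)

lemma wf_codeRule (c : Code) : (codeRule c).wf 2 := by
  cases c <;> simp [codeRule, Fm.wf, at', sc, eqv]

lemma wf_rule (τ : ℕ) : (rule τ).wf 2 := by
  match τ with
  | 0 => simp [rule, Fm.wf]
  | 1 => simp [rule, Fm.wf]
  | 2 => simp [rule, Fm.wf, at', sc, eqv]
  | 3 => simp [rule, Fm.wf, at', sc, eqv]
  | (τ + 4) => exact wf_codeRule _

/-- the goal: a fact of type `4 + encode c` with input the parameter -/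
def goal (c : Code) : Fm := .ex (.ex (.and (.par 0) (at' (4 + Encodable.encode c) 0 1)))

lemma wf_goal (c : Code) : (goal c).wf 0 := by simp [goal, Fm.wf, at']

/-- how `unpair` changes under successor -/
lemma unpair_succ (z : ℕ) : Nat.unpair (z + 1) =
    (if (Nat.unpair z).1 + 1 < (Nat.unpair z).2 then ((Nat.unpair z).1 + 1, (Nat.unpair z).2)
    else if (Nat.unpair z).1 + 1 = (Nat.unpair z).2 then ((Nat.unpair z).2, 0)
    else if (Nat.unpair z).2 < (Nat.unpair z).1 then ((Nat.unpair z).1, (Nat.unpair z).2 + 1)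
    else (0, (Nat.unpair z).1 + 1)) := by
  obtain ⟨a, b, rfl⟩ : ∃ a b, z = Nat.pair a b := ⟨_, _, (Nat.pair_unpair z).symm⟩
  rw [Nat.unpair_pair]
  simp only
  have key : ∀ a' b', Nat.pair a' b' = Nat.pair a b + 1 → Nat.unpair (Nat.pair a b + 1) = (a', b') := by
    intro a' b' h
    rw [← h, Nat.unpair_pair]
  split_ifs with h1 h2 h3
  · apply key
    simp only [Nat.pair]
    rw [if_pos h1, if_pos (by omega)]
    ring
  · apply key
    simp only [Nat.pair]
    rw [if_neg (by omega), if_pos (by omega)]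
    rw [← h2]; ring
  · apply key
    simp only [Nat.pair]
    rw [if_neg (by omega), if_neg (by omega)]
    ring
  · have h4 : a = b := by omega
    subst h4
    apply key
    simp only [Nat.pair]
    rw [if_pos (by omega), if_neg (by omega)]
    ring

lemma mem_rfind_iff (cf : Code) (a i y : ℕ) : y ∈ (Code.rfind' cf).eval (Nat.pair a i) ↔
    ∃ k, y = k + i ∧ 0 ∈ cf.eval (Nat.pair a (k + i)) ∧
      ∀ j < k, ∃ z, z ≠ 0 ∧ z ∈ cf.eval (Nat.pair a (j + i)) := by
  simp only [Code.eval, Nat.unpaired, Nat.unpair_pair]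
  rw [Part.mem_map_iff]
  constructor
  · rintro ⟨k, hk, rfl⟩
    obtain ⟨h1, h2⟩ := Nat.mem_rfind.mp hk
    refine ⟨k, rfl, ?_, ?_⟩
    · obtain ⟨z, hz, hz0⟩ := (Part.mem_map_iff _).mp h1
      have : z = 0 := by simpa using hz0
      rwa [this] at hz
    · intro j hj
      obtain ⟨z, hz, hz0⟩ := (Part.mem_map_iff _).mp (h2 hj)
      exact ⟨z, by simpa using hz0, hz⟩
  · rintro ⟨k, rfl, h1, h2⟩
    refine ⟨k, Nat.mem_rfind.mpr ?_, rfl⟩
    refine ⟨(Part.mem_map_iff _).mpr ⟨0, h1, by simp⟩, fun {j} hj => ?_⟩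
    obtain ⟨z, hz0, hz⟩ := h2 j hj
    exact (Part.mem_map_iff _).mpr ⟨z, hz, by simpa using hz0⟩

section sound

variable {n m A : ℕ} {F : ℕ → ℕ → ℕ → Prop} (hA : ∀ τ x y, F τ x y → x ≤ A)
  (h : ∀ τ < m, ∀ x y, F τ x y → ∃ y0 x1, F 0 x y0 ∧ F 0 x1 y ∧
    (rule τ).Holds n F 2 (asg x x1) (asg y0 y))
include h

lemma diag (hm : 4 ≤ m) : ∀ x y, F 0 x y → x = y := by
  intro x
  induction x with
  | zero =>
    intro y hF
    obtain ⟨y0, x1, -, -, hH⟩ := h 0 (by omega) _ _ hF
    rcases hH with ⟨-, hy⟩ | ⟨a, b, ha, hb, -⟩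
    · exact hy.symm
    · simp [asg] at ha
  | succ x ih =>
    intro y hF
    obtain ⟨y0, x1, -, -, hH⟩ := h 0 (by omega) _ _ hF
    rcases hH with ⟨hx, -⟩ | ⟨a, b, ha, hb, hab⟩
    · simp [Fm.Holds, asg] at hx
    · simp only [asg, if_true, Bool.toNat_true] at ha hb
      have ha' : x = a := by omega
      subst ha'
      have := ih b hab
      simp at hb
      omega

/-- single sorted form of the rules -/
lemma rule_diag (hm : 4 ≤ m) {τ x y : ℕ} (hτ : τ < m) (hF : F τ x y) :
    F 0 x x ∧ F 0 y y ∧ (rule τ).Holds n F 2 (asg x y) (asg x y) := by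
  have hd := diag h hm
  obtain ⟨y0, x1, h0, h1, hH⟩ := h τ hτ _ _ hF
  have e0 := hd _ _ h0
  have e1 := hd _ _ h1
  subst e0; subst e1
  exact ⟨h0, h1, hH⟩

lemma lt_sound (hm : 4 ≤ m) : ∀ x y, F 1 x y → x < y := by
  have hd := diag h hm
  intro x
  induction x with
  | zero =>
    intro y hF
    obtain ⟨-, -, hH⟩ := rule_diag h hm (by omega) hF
    rcases hH with ⟨-, x', y', hxy, a, b, ha, hb, hab⟩ | ⟨a, b, ha, hb, hab⟩
    · simp [asg, Function.update_apply] at hb
      omega
    · simp [asg] at ha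
  | succ x ih =>
    intro y hF
    obtain ⟨-, -, hH⟩ := rule_diag h hm (by omega) hF
    rcases hH with ⟨hx, -⟩ | ⟨a, b, ha, hb, hab⟩
    · simp [Fm.Holds, asg] at hx
    · simp only [asg, if_true, Bool.toNat_true] at ha hb
      have ha' : x = a := by omega
      subst ha'
      have := ih b hab
      simp at hb
      omega

lemma unpair_sound (hm : 4 ≤ m) : ∀ z, (∀ x, F 2 z x → x = (Nat.unpair z).1) ∧
    (∀ y, F 3 z y → y = (Nat.unpair z).2) := by
  have hd := diag h hm
  have hlt := lt_sound h hm
  intro z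
  induction z with
  | zero =>
    constructor
    · intro x hF
      obtain ⟨-, -, hH⟩ := rule_diag h hm (by omega) hF
      rcases hH with ⟨-, hx⟩ | ⟨x1, y1, h1, x2, y2, h2, x3, y3, h3, ⟨a, b, ha, hb, hab⟩, -⟩
      · simpa [Fm.Holds, asg] using hx
      · simp [asg] at hb
    · intro x hF
      obtain ⟨-, -, hH⟩ := rule_diag h hm (by omega) hF
      rcases hH with ⟨-, hx⟩ | ⟨x1, y1, h1, x2, y2, h2, x3, y3, h3, ⟨a, b, ha, hb, hab⟩, -⟩
      · simpa [Fm.Holds, asg] using hx
      · simp [asg] at hb
  | succ z ih =>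
    have hun := unpair_succ z
    constructor
    · intro x hF
      obtain ⟨-, -, hH⟩ := rule_diag h hm (by omega) hF
      rcases hH with ⟨hx, -⟩ | ⟨x1, y1, h1, x2, y2, h2, x3, y3, h3, hs, hL, hR, hcase⟩
      · simp [Fm.Holds, asg] at hx
      · have e1 := hd _ _ h1
        have e2 := hd _ _ h2
        have e3 := hd _ _ h3
        subst e1; subst e2; subst e3
        simp [Fm.Holds, sc, eqv, at', asg] at hs hL hR hcase
        have e4 := hd _ _ hs
        subst e4
        rw [← ih.1 _ hL, ← ih.2 _ hR] at hun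
        rw [hun]
        rcases hcase with ⟨⟨b, rfl, hb⟩, hb'⟩ | ⟨⟨b, hb0, hb⟩, hb'⟩ | ⟨hb, hb'⟩ | ⟨hb, rfl⟩
        · have e5 := hd _ _ hb
          have e6 := hlt _ _ hb'
          subst e5
          rw [if_pos e6]
        · have e5 := hd _ _ hb
          have e6 := hd _ _ hb'
          subst e5
          rw [if_neg (by omega), if_pos (by omega)]
          exact e6
        · have e5 := hlt _ _ hb
          have e6 := hd _ _ hb'
          rw [if_neg (by omega), if_neg (by omega), if_pos e5]
          exact e6.symm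
        · have e5 := hd _ _ hb
          rw [if_neg (by omega), if_neg (by omega), if_neg (by omega)]
    · intro x hF
      obtain ⟨-, -, hH⟩ := rule_diag h hm (by omega) hF
      rcases hH with ⟨hx, -⟩ | ⟨x1, y1, h1, x2, y2, h2, x3, y3, h3, hs, hL, hR, hcase⟩
      · simp [Fm.Holds, asg] at hx
      · have e1 := hd _ _ h1
        have e2 := hd _ _ h2
        have e3 := hd _ _ h3
        subst e1; subst e2; subst e3
        simp [Fm.Holds, sc, eqv, at', asg] at hs hL hR hcase
        have e4 := hd _ _ hs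
        subst e4
        rw [← ih.1 _ hL, ← ih.2 _ hR] at hun
        rw [hun]
        rcases hcase with ⟨x4, b, h4, hb, hb', hb''⟩ | ⟨⟨b, hb0, hb⟩, rfl⟩ |
          ⟨hb, b, rfl, hb'⟩ | ⟨hb, b, rfl, hb'⟩
        · have e4 := hd _ _ h4
          have e5 := hd _ _ hb
          have e6 := hlt _ _ hb'
          have e7 := hd _ _ hb''
          rw [if_pos (by omega)]
          exact e7.symm
        · have e5 := hd _ _ hb
          rw [if_neg (by omega), if_pos (by omega)]
        · have e5 := hlt _ _ hb
          have e6 := hd _ _ hb'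
          rw [if_neg (by omega), if_neg (by omega), if_pos e5]
          subst e6; rfl
        · have e5 := hd _ _ hb
          have e6 := hd _ _ hb'
          rw [if_neg (by omega), if_neg (by omega), if_neg (by omega)]
          subst e6; rfl

lemma L_sound (hm : 4 ≤ m) {z x : ℕ} (hF : F 2 z x) : x = (Nat.unpair z).1 :=
  (unpair_sound h hm z).1 x hF
lemma R_sound (hm : 4 ≤ m) {z x : ℕ} (hF : F 3 z x) : x = (Nat.unpair z).2 :=
  (unpair_sound h hm z).2 x hF

lemma pair_sound (hm : 4 ≤ m) {z x y : ℕ} (h1 : F 2 z x) (h2 : F 3 z y) : z = Nat.pair x y := by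
  rw [L_sound h hm h1, R_sound h hm h2, Nat.pair_unpair]

lemma code_rule {c : Code} (hc : 4 + Encodable.encode c < m) {x y : ℕ}
    (hF : F (4 + Encodable.encode c) x y) : (codeRule c).Holds n F 2 (asg x y) (asg x y) := by
  obtain ⟨-, -, hH⟩ := rule_diag h (by omega) hc hF
  have : rule (4 + Encodable.encode c) = codeRule c := by
    rw [Nat.add_comm, rule, Denumerable.ofNat_encode]
  rwa [this] at hH

include hA in
theorem code_sound (c : Code) : 4 + Encodable.encode c < m →
    ∀ x y, F (4 + Encodable.encode c) x y → y ∈ c.eval x := by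
  induction c with
  | zero =>
    intro hc x y hF
    have hH := code_rule h hc hF
    have : y = 0 := hH
    simp [Code.eval, this, pure, PFun.pure]
  | succ =>
    intro hc x y hF
    have hd := diag h (by omega)
    obtain ⟨a, b, ha, hb, hab⟩ := code_rule h hc hF
    have := hd _ _ hab
    simp [asg] at ha hb
    simp [Code.eval]
    omega
  | left =>
    intro hc x y hF
    obtain ⟨a, b, ha, hb, hab⟩ := code_rule h hc hF
    have := L_sound h (by omega) hab
    simp [asg] at ha hb
    simp [Code.eval]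
    subst ha hb; exact this
  | right =>
    intro hc x y hF
    obtain ⟨a, b, ha, hb, hab⟩ := code_rule h hc hF
    have := R_sound h (by omega) hab
    simp [asg] at ha hb
    simp [Code.eval]
    subst ha hb; exact this
  | pair cf cg ihf ihg =>
    intro hc x y hF
    have hd := diag h (by omega)
    have hlt := Code.encode_lt_pair cf cg
    obtain ⟨x1, y1, h1, x2, y2, h2, hH⟩ := code_rule h hc hF
    have e1 := hd _ _ h1
    have e2 := hd _ _ h2
    subst e1; subst e2
    simp [Fm.Holds, at', asg] at hH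
    obtain ⟨q1, q2, q3, q4⟩ := hH
    have r1 := ihf (by omega) _ _ q1
    have r2 := ihg (by omega) _ _ q2
    have r3 := pair_sound h (by omega) q3 q4
    rw [r3]
    simp only [Code.eval, Seq.seq]
    rw [Part.mem_bind_iff]
    exact ⟨_, Part.mem_map _ r1, Part.mem_map _ r2⟩
  | comp cf cg ihf ihg =>
    intro hc x y hF
    have hd := diag h (by omega)
    have hlt := Code.encode_lt_comp cf cg
    obtain ⟨x1, y1, h1, hH⟩ := code_rule h hc hF
    have e1 := hd _ _ h1
    subst e1
    simp [Fm.Holds, at', asg] at hH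
    obtain ⟨q1, q2⟩ := hH
    have r1 := ihg (by omega) _ _ q1
    have r2 := ihf (by omega) _ _ q2
    simp only [Code.eval]
    exact Part.mem_bind_iff.mpr ⟨_, r1, r2⟩
  | prec cf cg ihf ihg =>
    intro hc
    have hd := diag h (by omega)
    have hlt := Code.encode_lt_prec cf cg
    suffices H : ∀ k a y, F (4 + Encodable.encode (Code.prec cf cg)) (Nat.pair a k) y →
        y ∈ (Code.prec cf cg).eval (Nat.pair a k) by
      intro x y hF
      have := H (Nat.unpair x).2 (Nat.unpair x).1 y (by rw [Nat.pair_unpair]; exact hF)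
      rwa [Nat.pair_unpair] at this
    intro k
    induction k with
    | zero =>
      intro a y hF
      obtain ⟨x1, y1, h1, x2, y2, h2, hH⟩ := code_rule h hc hF
      have e1 := hd _ _ h1
      have e2 := hd _ _ h2
      subst e1; subst e2
      obtain ⟨q1, q2, q3⟩ := hH
      simp [Fm.Holds, at', asg] at q1 q2
      have r1 := L_sound h (by omega) q1
      have r2 := R_sound h (by omega) q2
      rw [Nat.unpair_pair] at r1 r2
      simp only at r1 r2
      subst r1; subst r2
      rw [Code.eval_prec_zero]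
      rcases q3 with ⟨q3, q4⟩ | ⟨x3, y3, h3, x4, y4, h4, x5, y5, h5, x6, y6, h6, x7, y7, h7, q3⟩
      · simp [Fm.Holds, at', asg] at q4
        exact ihf (by omega) _ _ q4
      · have e3 := hd _ _ h3
        subst e3
        simp [Fm.Holds, at', asg, sc] at q3
    | succ k ih =>
      intro a y hF
      obtain ⟨x1, y1, h1, x2, y2, h2, hH⟩ := code_rule h hc hF
      have e1 := hd _ _ h1
      have e2 := hd _ _ h2
      subst e1; subst e2
      obtain ⟨q1, q2, q3⟩ := hH
      simp [Fm.Holds, at', asg] at q1 q2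
      have r1 := L_sound h (by omega) q1
      have r2 := R_sound h (by omega) q2
      rw [Nat.unpair_pair] at r1 r2
      simp only at r1 r2
      subst r1; subst r2
      rw [Code.eval_prec_succ]
      rcases q3 with ⟨q3, q4⟩ | ⟨x3, y3, h3, x4, y4, h4, x5, y5, h5, x6, y6, h6, x7, y7, h7, q3⟩
      · simp [Fm.Holds] at q3
      · have e3 := hd _ _ h3
        have e4 := hd _ _ h4
        have e5 := hd _ _ h5
        have e6 := hd _ _ h6
        have e7 := hd _ _ h7
        subst e3; subst e4; subst e5; subst e6; subst e7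
        simp [Fm.Holds, at', asg, sc] at q3
        obtain ⟨s1, s2, s3, s4, s5, s6, s7, s8, s9⟩ := q3
        have t1 := hd _ _ s1
        subst t1
        have t2 := pair_sound h (by omega) s2 s3
        have t3 := pair_sound h (by omega) s5 s6
        have t4 := pair_sound h (by omega) s7 s8
        subst t2; subst t3; subst t4
        have t5 := ih _ _ s4
        have t6 := ihg (by omega) _ _ s9
        exact Part.mem_bind_iff.mpr ⟨_, t5, t6⟩
  | rfind' cf ihf =>
    intro hc
    have hd := diag h (by omega)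
    have hlt := Code.encode_lt_rfind' cf
    suffices H : ∀ k a i y, A < i + k →
        F (4 + Encodable.encode (Code.rfind' cf)) (Nat.pair a i) y →
        y ∈ (Code.rfind' cf).eval (Nat.pair a i) by
      intro x y hF
      have := H (A + 1) (Nat.unpair x).1 (Nat.unpair x).2 y (by omega)
        (by rw [Nat.pair_unpair]; exact hF)
      rwa [Nat.pair_unpair] at this
    intro k
    induction k with
    | zero =>
      intro a i y hAi hF
      have h1 := hA _ _ _ hF
      have h2 := Nat.right_le_pair a i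
      omega
    | succ k ih =>
      intro a i y hAi hF
      obtain ⟨x1, y1, h1, x2, y2, h2, hH⟩ := code_rule h hc hF
      have e1 := hd _ _ h1
      have e2 := hd _ _ h2
      subst e1; subst e2
      obtain ⟨q1, q2, q3⟩ := hH
      simp [Fm.Holds, at', asg] at q1 q2
      have r1 := L_sound h (by omega) q1
      have r2 := R_sound h (by omega) q2
      rw [Nat.unpair_pair] at r1 r2
      simp only at r1 r2
      subst r1; subst r2
      rcases q3 with ⟨x3, y3, h3, q3, q4, q5⟩ | ⟨x3, y3, h3, x4, y4, h4, x5, y5, h5, x6, y6, h6, q3⟩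
      · have e3 := hd _ _ h3
        subst e3
        simp [Fm.Holds, at', asg, eqv] at q3 q4 q5
        subst q3
        have t1 := ihf (by omega) _ _ q4
        have t2 := hd _ _ q5
        subst t2
        rw [mem_rfind_iff]
        exact ⟨0, by simp, by simpa using t1, fun j hj => by omega⟩
      · have e3 := hd _ _ h3
        have e4 := hd _ _ h4
        have e5 := hd _ _ h5
        have e6 := hd _ _ h6
        subst e3; subst e4; subst e5; subst e6
        simp [Fm.Holds, at', asg, sc] at q3
        obtain ⟨⟨z, hz, s1⟩, s2, ⟨z', hz', s3⟩, s4, s5, s6⟩ := q3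
        have t1 := ihf (by omega) _ _ s2
        have t2 := pair_sound h (by omega) s4 s5
        have t3 := hd _ _ s3
        subst t3; subst hz'; subst t2
        have t4 := ih x1 (x2 + 1) y (by omega) s6
        rw [mem_rfind_iff] at t4 ⊢
        obtain ⟨k', rfl, u1, u2⟩ := t4
        refine ⟨k' + 1, by ring, ?_, ?_⟩
        · have : k' + 1 + x2 = k' + (x2 + 1) := by ring
          rw [this]; exact u1
        · intro j hj
          rcases j with _ | j
          · exact ⟨x3, by omega, by simpa using t1⟩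
          · have : j + 1 + x2 = j + (x2 + 1) := by ring
            rw [this]
            exact u2 j (by omega)

end sound

end Pool.Agent.helper72.MC
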