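import Pool.Agent.helper72.MC.Eval

set_option autoImplicit false

namespace Pool.Agent.helper72.MC

open Nat.Partrec (Code)

/-- the true facts, with bounds -/
def TF (k A E : ℕ) : ℕ → ℕ → ℕ → Prop
  | 0, x, y => x = y ∧ x ≤ A
  | 1, x, y => x < y ∧ y ≤ A
  | 2, z, x => x = (Nat.unpair z).1 ∧ z ≤ A
  | 3, z, y => y = (Nat.unpair z).2 ∧ z ≤ A
  | (τ + 4), x, y => τ ≤ E ∧ y ∈ Code.evaln k (Denumerable.ofNat Code τ) x

variable {k A E n : ℕ}

lemma TF0 {x y : ℕ} : TF k A E 0 x y ↔ x = y ∧ x ≤ A := Iff.rfl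
lemma TF1 {x y : ℕ} : TF k A E 1 x y ↔ x < y ∧ y ≤ A := Iff.rfl
lemma TF2 {x y : ℕ} : TF k A E 2 x y ↔ y = (Nat.unpair x).1 ∧ x ≤ A := Iff.rfl
lemma TF3 {x y : ℕ} : TF k A E 3 x y ↔ y = (Nat.unpair x).2 ∧ x ≤ A := Iff.rfl
lemma TFc {c : Code} {x y : ℕ} : TF k A E (4 + Encodable.encode c) x y ↔
    Encodable.encode c ≤ E ∧ y ∈ Code.evaln k c x := by
  rw [Nat.add_comm]
  show _ ≤ E ∧ _ ∈ Code.evaln k (Denumerable.ofNat Code (Encodable.encode c)) x ↔ _
  rw [Denumerable.ofNat_encode]

lemma holds_ex {F : ℕ → ℕ → ℕ → Prop} {φ : Fm} {j : ℕ} {xs ys : ℕ → ℕ} (a : ℕ) (ha : F 0 a a)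
    (h : φ.Holds n F (j + 1) (Function.update xs j a) (Function.update ys j a)) :
    (Fm.ex φ).Holds n F j xs ys := ⟨a, a, ha, h⟩

lemma holds_at {F : ℕ → ℕ → ℕ → Prop} {j : ℕ} {xs ys : ℕ → ℕ} {τ i l : ℕ} :
    (at' τ i l).Holds n F j xs ys ↔ F τ (xs i) (ys l) := by
  simp [at', Fm.Holds]
lemma holds_eqv {F : ℕ → ℕ → ℕ → Prop} {j : ℕ} {xs ys : ℕ → ℕ} {i l : ℕ} :
    (eqv i l).Holds n F j xs ys ↔ F 0 (xs i) (ys l) := by
  simp [eqv, Fm.Holds]
lemma holds_sc {F : ℕ → ℕ → ℕ → Prop} {j : ℕ} {xs ys : ℕ → ℕ} {i l : ℕ} :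
    (sc i l).Holds n F j xs ys ↔ ∃ b, ys l = b + 1 ∧ F 0 (xs i) b := by
  simp [sc, Fm.Holds]

section
variable (hk : k ≤ A) (hA : ∀ τ ≤ E, ∀ x y, y ∈ Code.evaln k (Denumerable.ofNat Code τ) x → y ≤ A)
include hk hA

lemma evaln_le {c : Code} (hc : Encodable.encode c ≤ E) {x y : ℕ} (h : y ∈ Code.evaln k c x) :
    x ≤ A ∧ y ≤ A := by
  refine ⟨?_, hA _ hc x y (by rw [Denumerable.ofNat_encode]; exact h)⟩
  have := Code.evaln_bound h
  omega

lemma code_rule_true {c : Code} (hc : Encodable.encode c ≤ E) {x y : ℕ}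
    (h : y ∈ Code.evaln k c x) : (codeRule c).Holds n (TF k A E) 2 (asg x y) (asg x y) := by
  obtain ⟨hx, hy⟩ := evaln_le hk hA hc h
  obtain ⟨k, rfl⟩ : ∃ k', k = k' + 1 := by
    rcases k with _ | k
    · simp [Code.evaln] at h
    · exact ⟨k, rfl⟩
  cases c with
  | zero =>
    simp [Code.evaln, Option.bind_eq_some_iff] at h
    exact h.2.symm
  | succ =>
    simp [Code.evaln, Option.bind_eq_some_iff] at h
    simp only [codeRule, holds_sc, asg, if_true, one_ne_zero, if_false, TF0]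
    exact ⟨x, h.2.symm, rfl, hx⟩
  | left =>
    simp [Code.evaln, Option.bind_eq_some_iff] at h
    simp only [codeRule, holds_at, asg, if_true, one_ne_zero, if_false, TF2]
    exact ⟨h.2.symm, hx⟩
  | right =>
    simp [Code.evaln, Option.bind_eq_some_iff] at h
    simp only [codeRule, holds_at, asg, if_true, one_ne_zero, if_false, TF3]
    exact ⟨h.2.symm, hx⟩
  | pair cf cg =>
    have hlt := Code.encode_lt_pair cf cg
    simp [Code.evaln, Option.bind_eq_some_iff, Seq.seq] at h
    obtain ⟨-, a, ha, b, hb, rfl⟩ := h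
    have h1 := evaln_le hk hA (by omega) (Option.mem_def.mpr ha)
    have h2 := evaln_le hk hA (by omega) (Option.mem_def.mpr hb)
    refine holds_ex a ⟨rfl, h1.2⟩ (holds_ex b ⟨rfl, h2.2⟩ ?_)
    simp only [Fm.Holds, holds_at, TFc, TF2, TF3]
    simp [asg]
    refine ⟨⟨by omega, ha⟩, ⟨by omega, hb⟩, hy⟩
  | comp cf cg =>
    have hlt := Code.encode_lt_comp cf cg
    simp [Code.evaln, Option.bind_eq_some_iff] at h
    obtain ⟨-, a, ha, hb⟩ := h
    have h1 := evaln_le hk hA (by omega) (Option.mem_def.mpr ha)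
    refine holds_ex a ⟨rfl, h1.2⟩ ?_
    simp only [Fm.Holds, holds_at, TFc]
    simp [asg]
    exact ⟨⟨by omega, ha⟩, ⟨by omega, hb⟩⟩
  | prec cf cg =>
    have hlt := Code.encode_lt_prec cf cg
    obtain ⟨a, i, rfl⟩ : ∃ a i, x = Nat.pair a i := ⟨_, _, (Nat.pair_unpair x).symm⟩
    have ha := Nat.left_le_pair a i
    have hi := Nat.right_le_pair a i
    refine holds_ex a ⟨rfl, by omega⟩ (holds_ex i ⟨rfl, by omega⟩ ⟨?_, ?_, ?_⟩)
    · simp only [holds_at, TF2]
      simp [asg]
      exact hx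
    · simp only [holds_at, TF3]
      simp [asg]
      exact hx
    · rcases i with _ | i
      · left
        simp [Code.evaln, Option.bind_eq_some_iff] at h
        refine ⟨?_, ?_⟩
        · simp [Fm.Holds]
        · simp only [holds_at, TFc]
          simp [asg]
          exact ⟨by omega, h.2⟩
      · right
        simp [Code.evaln, Option.bind_eq_some_iff] at h
        obtain ⟨-, z, hz, hg⟩ := h
        have hz' := Code.evaln_mono (Nat.le_succ k) (Option.mem_def.mpr hz)
        have h1 := evaln_le hk hA hc hz'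
        have h2 := evaln_le hk hA (by omega) (Option.mem_def.mpr hg)
        have h3 := Nat.right_le_pair a (Nat.pair i z)
        refine holds_ex i ⟨rfl, by omega⟩ (holds_ex (Nat.pair a i) ⟨rfl, by omega⟩
          (holds_ex z ⟨rfl, by omega⟩ (holds_ex (Nat.pair i z) ⟨rfl, by omega⟩
          (holds_ex (Nat.pair a (Nat.pair i z)) ⟨rfl, by omega⟩ ?_))))
        simp only [Fm.Holds, holds_at, holds_sc, TFc, TF0, TF2, TF3]
        simp [asg]
        refine ⟨by omega, by omega, ⟨hc, hz'⟩, by omega, by omega, by omega, hg⟩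
  | rfind' cf =>
    have hlt := Code.encode_lt_rfind' cf
    obtain ⟨a, i, rfl⟩ : ∃ a i, x = Nat.pair a i := ⟨_, _, (Nat.pair_unpair x).symm⟩
    have ha := Nat.left_le_pair a i
    have hi := Nat.right_le_pair a i
    refine holds_ex a ⟨rfl, by omega⟩ (holds_ex i ⟨rfl, by omega⟩ ⟨?_, ?_, ?_⟩)
    · simp only [holds_at, TF2]
      simp [asg]
      exact hx
    · simp only [holds_at, TF3]
      simp [asg]
      exact hx
    · simp [Code.evaln, Option.bind_eq_some_iff] at h
      obtain ⟨-, z, hz, hif⟩ := h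
      have h1 := evaln_le hk hA (by omega) (Option.mem_def.mpr hz)
      rcases z with _ | z
      · left
        simp at hif
        subst hif
        refine holds_ex 0 ⟨rfl, by omega⟩ ?_
        simp only [Fm.Holds, holds_at, holds_eqv, TFc, TF0]
        simp [asg]
        exact ⟨⟨by omega, hz⟩, by omega⟩
      · right
        rw [if_neg (by omega)] at hif
        have hif' := Code.evaln_mono (Nat.le_succ k) (Option.mem_def.mpr hif)
        have h2 := evaln_le hk hA hc hif'
        have h3 := Nat.right_le_pair a (i + 1)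
        refine holds_ex (z + 1) ⟨rfl, by omega⟩ (holds_ex z ⟨rfl, by omega⟩
          (holds_ex (i + 1) ⟨rfl, by omega⟩ (holds_ex (Nat.pair a (i + 1)) ⟨rfl, by omega⟩ ?_)))
        simp only [Fm.Holds, holds_at, holds_sc, TFc, TF0, TF2, TF3]
        simp [asg]
        refine ⟨by omega, ⟨by omega, hz⟩, by omega, by omega, hc, hif'⟩

lemma rule_true : ∀ τ x y, TF k A E τ x y → ∃ y0 x1, TF k A E 0 x y0 ∧ TF k A E 0 x1 y ∧
    (rule τ).Holds n (TF k A E) 2 (asg x x1) (asg y0 y) := by
  intro τ x y hF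
  match τ, hF with
  | 0, hF =>
    obtain ⟨rfl, hx⟩ := hF
    refine ⟨x, x, ⟨rfl, hx⟩, ⟨rfl, hx⟩, ?_⟩
    rcases x with _ | x
    · left; simp [Fm.Holds, asg]
    · right
      exact ⟨x, x, rfl, rfl, rfl, by omega⟩
  | 1, hF =>
    obtain ⟨hxy, hy⟩ := hF
    refine ⟨x, y, ⟨rfl, by omega⟩, ⟨rfl, hy⟩, ?_⟩
    rcases x with _ | x
    · left
      refine ⟨rfl, holds_ex (y - 1) ⟨rfl, by omega⟩ ?_⟩
      refine ⟨y - 1, y - 1, rfl, ?_, rfl, by omega⟩
      simp [asg]; omega
    · right
      exact ⟨x, y - 1, rfl, by simp [asg]; omega, by omega, by omega⟩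
  | 2, hF =>
    obtain ⟨rfl, hx⟩ := hF
    have hl := Nat.unpair_left_le x
    refine ⟨x, _, ⟨rfl, hx⟩, ⟨rfl, by omega⟩, ?_⟩
    rcases x with _ | z
    · left; simp [Fm.Holds, asg]
    · right
      have hl' := Nat.unpair_left_le z
      have hr' := Nat.unpair_right_le z
      refine holds_ex z ⟨rfl, by omega⟩ (holds_ex (Nat.unpair z).1 ⟨rfl, by omega⟩
        (holds_ex (Nat.unpair z).2 ⟨rfl, by omega⟩ ?_))
      have hun := unpair_succ z
      refine ⟨?_, ?_, ?_, ?_⟩
      · simp only [holds_sc, TF0]; simp [asg]; omega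
      · simp only [holds_at, TF2]; simp; omega
      · simp only [holds_at, TF3]; simp; omega
      · rw [hun] at hl ⊢
        generalize (Nat.unpair z).1 = a at *
        generalize (Nat.unpair z).2 = b at *
        split_ifs at hl ⊢ with c1 c2 c3
        · left
          simp only [Fm.Holds, holds_at, holds_sc, TF0, TF1]
          simp [asg]; omega
        · right; left
          simp only [Fm.Holds, holds_sc, holds_eqv, TF0]
          simp [asg]; omega
        · right; right; left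
          simp only [Fm.Holds, holds_at, holds_eqv, TF0, TF1]
          simp [asg]; omega
        · right; right; right
          simp only [Fm.Holds, holds_eqv, TF0]
          simp [asg]; omega
  | 3, hF =>
    obtain ⟨rfl, hx⟩ := hF
    have hl := Nat.unpair_right_le x
    refine ⟨x, _, ⟨rfl, hx⟩, ⟨rfl, by omega⟩, ?_⟩
    rcases x with _ | z
    · left; simp [Fm.Holds, asg]
    · right
      have hl' := Nat.unpair_left_le z
      have hr' := Nat.unpair_right_le z
      refine holds_ex z ⟨rfl, by omega⟩ (holds_ex (Nat.unpair z).1 ⟨rfl, by omega⟩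
        (holds_ex (Nat.unpair z).2 ⟨rfl, by omega⟩ ?_))
      have hun := unpair_succ z
      refine ⟨?_, ?_, ?_, ?_⟩
      · simp only [holds_sc, TF0]; simp [asg]; omega
      · simp only [holds_at, TF2]; simp [asg]; omega
      · simp only [holds_at, TF3]; simp [asg]; omega
      · rw [hun] at hl ⊢
        generalize (Nat.unpair z).1 = a at *
        generalize (Nat.unpair z).2 = b at *
        split_ifs at hl ⊢ with c1 c2 c3
        · left
          refine holds_ex (a + 1) ⟨rfl, by omega⟩ ?_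
          simp only [Fm.Holds, holds_at, holds_sc, holds_eqv, TF0, TF1]
          simp [asg]; omega
        · right; left
          simp only [Fm.Holds, holds_at, holds_sc, holds_eqv, TF0, TF1]
          simp [asg]; omega
        · right; right; left
          simp only [Fm.Holds, holds_at, holds_sc, holds_eqv, TF0, TF1]
          simp [asg]; omega
        · right; right; right
          simp only [Fm.Holds, holds_at, holds_sc, holds_eqv, TF0, TF1]
          simp [asg]; omega
  | (τ + 4), hF =>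
    obtain ⟨hτ, hF⟩ := hF
    obtain ⟨c, rfl⟩ : ∃ c : Code, τ = Encodable.encode c :=
      ⟨Denumerable.ofNat Code τ, (Denumerable.encode_ofNat (α := Code) τ).symm⟩
    rw [Denumerable.ofNat_encode] at hF
    have hxy := evaln_le hk hA hτ hF
    refine ⟨x, y, ⟨rfl, hxy.1⟩, ⟨rfl, hxy.2⟩, ?_⟩
    have : rule (Encodable.encode c + 4) = codeRule c := by
      rw [rule, Denumerable.ofNat_encode]
    rw [this]
    exact code_rule_true hk hA hτ hF

lemma TF_bound (τ x y : ℕ) (hF : TF k A E τ x y) : τ < E + 5 ∧ x ≤ A ∧ y ≤ A := by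
  match τ, hF with
  | 0, hF => obtain ⟨rfl, hx⟩ := hF; exact ⟨by omega, hx, hx⟩
  | 1, hF => obtain ⟨h1, h2⟩ := hF; exact ⟨by omega, by omega, h2⟩
  | 2, hF =>
    obtain ⟨rfl, hx⟩ := hF
    exact ⟨by omega, hx, le_trans (Nat.unpair_left_le x) hx⟩
  | 3, hF =>
    obtain ⟨rfl, hx⟩ := hF
    exact ⟨by omega, hx, le_trans (Nat.unpair_right_le x) hx⟩
  | (τ + 4), hF =>
    obtain ⟨hτ, hF⟩ := hF
    have h1 := hA τ hτ x y hF
    have h2 := Code.evaln_bound hF
    exact ⟨by omega, by omega, h1⟩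

end

/-- bound for the outputs of finitely many bounded evaluations -/
lemma exists_bound (k E : ℕ) : ∃ A, k ≤ A ∧
    ∀ τ ≤ E, ∀ x y, y ∈ Code.evaln k (Denumerable.ofNat Code τ) x → y ≤ A := by
  refine ⟨k + ∑ τ ∈ Finset.range (E + 1), ∑ x ∈ Finset.range k,
    (Code.evaln k (Denumerable.ofNat Code τ) x).getD 0, by omega, ?_⟩
  intro τ hτ x y hy
  have hx := Code.evaln_bound hy
  have h1 : (Code.evaln k (Denumerable.ofNat Code τ) x).getD 0 = y := by
    rw [Option.mem_def] at hy
    rw [hy]; rfl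
  have h2 : (Code.evaln k (Denumerable.ofNat Code τ) x).getD 0 ≤
      ∑ x ∈ Finset.range k, (Code.evaln k (Denumerable.ofNat Code τ) x).getD 0 :=
    Finset.single_le_sum (f := fun x => (Code.evaln k (Denumerable.ofNat Code τ) x).getD 0)
      (fun i _ => Nat.zero_le _) (Finset.mem_range.mpr hx)
  have h3 : ∑ x ∈ Finset.range k, (Code.evaln k (Denumerable.ofNat Code τ) x).getD 0 ≤
      ∑ τ ∈ Finset.range (E + 1), ∑ x ∈ Finset.range k,
        (Code.evaln k (Denumerable.ofNat Code τ) x).getD 0 :=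
    Finset.single_le_sum (f := fun τ => ∑ x ∈ Finset.range k,
      (Code.evaln k (Denumerable.ofNat Code τ) x).getD 0)
      (fun i _ => Nat.zero_le _) (Finset.mem_range.mpr (by omega))
  omega

/-- **Reduction.** Halting of a code on input `n` is expressed by one circuit term. -/
theorem halting_term (c : Code) : ∃ e : Ex, ∀ n, 0 ∈ e.val (5 ^ (n + 3)) ↔ (c.eval n).Dom := by
  obtain ⟨e, he⟩ := encode (Encodable.encode c + 5) rule (goal c) (fun τ _ => wf_rule τ) (wf_goal c)
  refine ⟨e, fun n => ⟨fun h => ?_, fun h => ?_⟩⟩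
  · obtain ⟨F, ⟨A, hA⟩, hrule, hgoal⟩ := (he n).1 h
    have hd := diag hrule (by omega)
    obtain ⟨x, x', hx, y, y', hy, h1, h2⟩ := hgoal
    have e1 := hd _ _ hx
    have e2 := hd _ _ hy
    subst e1; subst e2
    rw [holds_at] at h2
    simp [Fm.Holds, Function.update_apply] at h1 h2
    subst h1
    have := code_sound hA hrule c (by omega) _ _ h2
    exact this.fst
  · obtain ⟨y, hy⟩ := Part.dom_iff_mem.mp h
    obtain ⟨k, hk⟩ := Code.evaln_complete.mp hy
    obtain ⟨A, hkA, hA⟩ := exists_bound k (Encodable.encode c)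
    have hb := evaln_le hkA hA le_rfl hk
    refine (he n).2 ⟨A, TF k A (Encodable.encode c), TF_bound hkA hA, rule_true hkA hA, ?_⟩
    refine holds_ex n ⟨rfl, hb.1⟩ (holds_ex y ⟨rfl, hb.2⟩ ⟨?_, ?_⟩)
    · simp [Fm.Holds, Function.update_apply]
    · rw [holds_at, TFc]
      simp [Function.update_apply]
      exact hk

end Pool.Agent.helper72.MC
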