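import Pool.Agent.helper72.MC.Node

set_option autoImplicit false

namespace Pool.Agent.helper72.MC

/-- Positive existential formulas about finite sets of facts. Variable `i` has an s-value and a
t-value; `ex` introduces the variable numbered by the current depth. -/
inductive Fm
  | fact (τ i : ℕ) (dx : Bool) (j : ℕ) (dy : Bool)
  | zs (i : ℕ)
  | zt (i : ℕ)
  | par (i : ℕ)
  | and (φ ψ : Fm)
  | or (φ ψ : Fm)
  | ex (φ : Fm)

/-- all variables of the formula at depth `k` are below the current depth -/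
def Fm.wf : ℕ → Fm → Prop
  | k, .fact _ i _ j _ => i < k ∧ j < k
  | k, .zs i => i < k
  | k, .zt i => i < k
  | k, .par i => i < k
  | k, .and φ ψ => φ.wf k ∧ ψ.wf k
  | k, .or φ ψ => φ.wf k ∧ ψ.wf k
  | k, .ex φ => φ.wf (k + 1)

/-- quantifier depth -/
def Fm.depth : Fm → ℕ
  | .fact _ _ _ _ _ => 0
  | .zs _ => 0
  | .zt _ => 0
  | .par _ => 0
  | .and φ ψ => max φ.depth ψ.depth
  | .or φ ψ => max φ.depth ψ.depth
  | .ex φ => φ.depth + 1

/-- truth; `n` is the parameter, `F` the set of facts, `xs` and `ys` the s-values and t-values -/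
def Fm.Holds (n : ℕ) (F : ℕ → ℕ → ℕ → Prop) : ℕ → Fm → (ℕ → ℕ) → (ℕ → ℕ) → Prop
  | _, .fact τ i dx j dy, xs, ys => ∃ a b, xs i = a + dx.toNat ∧ ys j = b + dy.toNat ∧ F τ a b
  | _, .zs i, xs, _ => xs i = 0
  | _, .zt i, _, ys => ys i = 0
  | _, .par i, xs, _ => xs i = n
  | k, .and φ ψ, xs, ys => Fm.Holds n F k φ xs ys ∧ Fm.Holds n F k ψ xs ys
  | k, .or φ ψ, xs, ys => Fm.Holds n F k φ xs ys ∨ Fm.Holds n F k ψ xs ys
  | k, .ex φ, xs, ys => ∃ x y, F 0 x y ∧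
      Fm.Holds n F (k + 1) φ (Function.update xs k x) (Function.update ys k y)

variable {Q : ℕ}

/-- the set of nodes satisfying a formula; `v` is the label of the parameter gate -/
def toSet (B : Bases Q) (v : ℕ) : ℕ → Fm → Set ℕ
  | _, .fact τ i dx j dy => AF B τ i dx j dy
  | _, .zs i => {N | N ≠ 0 ∧ Rp 5 2 0 (sv B i N)}
  | _, .zt i => {N | N ≠ 0 ∧ Rp 7 2 0 (tv B i N)}
  | _, .par i => {N | N ≠ 0 ∧ ∃ r, sv B i N = 1 + v * (5 ^ 2 * r + 2)}
  | k, .and φ ψ => toSet B v k φ ∩ toSet B v k ψ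
  | k, .or φ ψ => toSet B v k φ ∪ toSet B v k ψ
  | k, .ex φ => {N | ∃ M ∈ toSet B v (k + 1) φ ∩ AF B 0 k false k false, ∃ e f,
      N = M * B.g k ^ e * B.h k ^ f}

/-! ### Definability -/

lemma Def.Cls {ℓ : ℕ} (hℓ : ℓ.Prime) (c : ℕ) : Def (fun _ => Cls ℓ c) := by
  refine ((Def.sing 1).add ((Def.pw hℓ).mul (Def.prog (ℓ ^ 2) c))).congr ?_
  intro _; ext n
  constructor
  · rintro ⟨x, hx, y, ⟨z, ⟨a, rfl⟩, w, ⟨k, rfl⟩, rfl⟩, rfl⟩
    obtain rfl : x = 1 := hx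
    exact ⟨a, k, rfl⟩
  · rintro ⟨a, k, rfl⟩
    exact ⟨1, rfl, _, ⟨_, ⟨a, rfl⟩, _, ⟨k, rfl⟩, rfl⟩, rfl⟩

lemma Def.RpEx {ℓ : ℕ} (hℓ : ℓ.Prime) (c : ℕ) : Def (fun _ => {n | ∃ a, Rp ℓ c a n}) := by
  refine ((Def.sing 1).add (((Def.sing (ℓ ^ 3)).mul (Def.pw hℓ)).mul (Def.prog (ℓ ^ 2) c))).congr ?_
  intro _; ext n
  constructor
  · rintro ⟨x, hx, y, ⟨z, ⟨u, hu, v, ⟨a, rfl⟩, rfl⟩, w, ⟨k, rfl⟩, rfl⟩, rfl⟩
    obtain rfl : x = 1 := hx
    obtain rfl : u = ℓ ^ 3 := hu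
    exact ⟨a, k, by ring⟩
  · rintro ⟨a, k, rfl⟩
    exact ⟨1, rfl, _, ⟨_, ⟨_, rfl, _, ⟨a, rfl⟩, rfl⟩, _, ⟨k, rfl⟩, rfl⟩, by ring⟩

lemma Def.Rp0 (ℓ c : ℕ) : Def (fun _ => {n | Rp ℓ c 0 n}) := by
  refine ((Def.sing 1).add ((Def.sing (ℓ ^ 3)).mul (Def.prog (ℓ ^ 2) c))).congr ?_
  intro _; ext n
  constructor
  · rintro ⟨x, hx, y, ⟨z, hz, w, ⟨k, rfl⟩, rfl⟩, rfl⟩
    obtain rfl : x = 1 := hx
    obtain rfl : z = ℓ ^ 3 := hz
    exact ⟨k, by ring⟩
  · rintro ⟨k, rfl⟩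
    exact ⟨1, rfl, _, ⟨_, rfl, _, ⟨k, rfl⟩, rfl⟩, by ring⟩

lemma Def.par : Def (fun v => {n | ∃ r, n = 1 + v * (5 ^ 2 * r + 2)}) := by
  refine ((Def.sing 1).add (Def.param.mul (Def.prog (5 ^ 2) 2))).congr ?_
  intro v; ext n
  constructor
  · rintro ⟨x, hx, y, ⟨z, hz, w, ⟨k, rfl⟩, rfl⟩, rfl⟩
    obtain rfl : x = 1 := hx
    obtain rfl : z = v := hz
    exact ⟨k, rfl⟩
  · rintro ⟨k, rfl⟩
    exact ⟨1, rfl, _, ⟨_, rfl, _, ⟨k, rfl⟩, rfl⟩, rfl⟩

lemma Def.modEq (hQ : 0 < Q) (c : ℕ) : Def (fun _ => {n | n % Q = c}) := by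
  by_cases hc : c < Q
  · refine (Def.prog Q c).congr ?_
    intro _; ext n
    constructor
    · rintro ⟨k, rfl⟩
      show (Q * k + c) % Q = c
      rw [Nat.mul_add_mod, Nat.mod_eq_of_lt hc]
    · intro h
      have h' : n % Q = c := h
      exact ⟨n / Q, by rw [← h']; exact (Nat.div_add_mod n Q).symm⟩
  · refine Def.empty.congr ?_
    intro _; ext n
    constructor
    · intro h; exact h.elim
    · intro h
      have h' : n % Q = c := h
      exact (hc (h' ▸ Nat.mod_lt n hQ)).elim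

lemma Def.Pr (hQ : 0 < Q) (τ : ℕ) : Def (fun _ => Pr Q τ) := by
  refine (Def.primes.inter ((Def.RpEx (ℓ := 5) (by norm_num) 1).inter
    ((Def.RpEx (ℓ := 7) (by norm_num) 1).inter (Def.modEq hQ (2 * τ + 5))))).congr ?_
  intro _; rfl

lemma Def.EqR {ℓ g : ℕ} (hℓ : ℓ.Prime) (hg : g.Prime) {P : Set ℕ} (hP : Def (fun _ => P))
    (d : Bool) : Def (fun _ => EqR ℓ g P d) :=
  (((Def.pw hg).inter (Def.RpEx hℓ 2)).mul hP).inter (Def.Cls hℓ _)

lemma Def.AF (hQ : 0 < Q) (B : Bases Q) (τ i : ℕ) (dx : Bool) (j : ℕ) (dy : Bool) :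
    Def (fun _ => AF B τ i dx j dy) := by
  refine Def.congr (f := fun _ => _) ?_ (fun _ => (AF_eq B τ i dx j dy).symm)
  exact (((Def.EqR (by norm_num) (B.g_prime i) (Def.Pr hQ τ) dx).mul (Def.pw (B.h_prime j))).inter
    ((Def.EqR (by norm_num) (B.h_prime j) (Def.Pr hQ τ) dy).mul (Def.pw (B.g_prime i)))).mul
    ((Def.cop _).inter (Def.cop _))

lemma Def.node {g : ℕ} (hg : g.Prime) {X : ℕ → Set ℕ} (hX : Def X) :
    Def (fun v => {N | N ≠ 0 ∧ fp g N ∈ X v}) := by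
  refine (((Def.pw hg).inter hX).mul (Def.cop g)).congr (fun v => (node_eq hg (X v)).symm)

lemma Def.lower {g h : ℕ} (hg : g.Prime) (hh : h.Prime) {X : ℕ → Set ℕ} (hX : Def X) :
    Def (fun v => {N | ∃ M ∈ X v, ∃ e f, N = M * g ^ e * h ^ f}) := by
  refine ((hX.mul (Def.pw hg)).mul (Def.pw hh)).congr ?_
  intro v; ext n
  constructor
  · rintro ⟨x, ⟨M, hM, y, ⟨e, rfl⟩, rfl⟩, z, ⟨f, rfl⟩, rfl⟩
    exact ⟨M, hM, e, f, rfl⟩
  · rintro ⟨M, hM, e, f, rfl⟩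
    exact ⟨_, ⟨M, hM, _, ⟨e, rfl⟩, rfl⟩, _, ⟨f, rfl⟩, rfl⟩

lemma Def.toSet (hQ : 0 < Q) (B : Bases Q) (φ : Fm) : ∀ k, Def (fun v => toSet B v k φ) := by
  induction φ with
  | fact τ i dx j dy => intro k; exact Def.AF hQ B τ i dx j dy
  | zs i => intro k; exact Def.node (B.g_prime i) (Def.Rp0 5 2)
  | zt i => intro k; exact Def.node (B.h_prime i) (Def.Rp0 7 2)
  | par i => intro k; exact Def.node (B.g_prime i) Def.par
  | and φ ψ ihφ ihψ => intro k; exact (ihφ k).inter (ihψ k)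
  | or φ ψ ihφ ihψ => intro k; exact (ihφ k).union (ihψ k)
  | ex φ ih =>
    intro k
    exact Def.lower (B.g_prime k) (B.h_prime k) ((ih (k + 1)).inter (Def.AF hQ B 0 k false k false))

/-! ### Soundness -/

lemma Fct_lower (B : Bases Q) (i j e f : ℕ) (M τ x y : ℕ) :
    Fct Q (M * B.g i ^ e * B.h j ^ f) τ x y ↔ Fct Q M τ x y := by
  constructor
  · rintro ⟨p, hp, hd, hx, hy, hQ⟩
    refine ⟨p, hp, ?_, hx, hy, hQ⟩
    rw [dvd_mul_pow_iff hp (B.h_prime j) (B.ne_h hQ j),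
      dvd_mul_pow_iff hp (B.g_prime i) (B.ne_g hQ i)] at hd
    exact hd
  · rintro ⟨p, hp, hd, hx, hy, hQ⟩
    exact ⟨p, hp, Dvd.dvd.mul_right (Dvd.dvd.mul_right hd _) _, hx, hy, hQ⟩

lemma sv_lower (B : Bases Q) {i j k e f M : ℕ} (hM : M ≠ 0) (hk : k ≠ i) :
    sv B k (M * B.g i ^ e * B.h j ^ f) = sv B k M := by
  unfold sv
  rw [fp_mul_pow (B.g_prime k) (B.h_prime j) (B.g_ne_h k j)
      (mul_ne_zero hM (pow_ne_zero _ (B.g_prime i).ne_zero)),
    fp_mul_pow (B.g_prime k) (B.g_prime i) (fun h => hk (B.g_inj h)) hM]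

lemma tv_lower (B : Bases Q) {i j k e f M : ℕ} (hM : M ≠ 0) (hk : k ≠ j) :
    tv B k (M * B.g i ^ e * B.h j ^ f) = tv B k M := by
  unfold tv
  rw [fp_mul_pow (B.h_prime k) (B.h_prime j) (fun h => hk (B.h_inj h))
      (mul_ne_zero hM (pow_ne_zero _ (B.g_prime i).ne_zero)),
    fp_mul_pow (B.h_prime k) (B.g_prime i) (B.g_ne_h i k).symm hM]

lemma toSet_ne_zero (B : Bases Q) (v : ℕ) (φ : Fm) : ∀ k N, N ∈ toSet B v k φ → N ≠ 0 := by
  induction φ with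
  | fact τ i dx j dy => intro k N h; exact h.1
  | zs i => intro k N h; exact h.1
  | zt i => intro k N h; exact h.1
  | par i => intro k N h; exact h.1
  | and φ ψ ihφ ihψ => intro k N h; exact ihφ k N h.1
  | or φ ψ ihφ ihψ => intro k N h; exact h.elim (ihφ k N) (ihψ k N)
  | ex φ ih =>
    rintro k N ⟨M, ⟨hM, -⟩, e, f, rfl⟩
    exact mul_ne_zero (mul_ne_zero (ih _ _ hM) (pow_ne_zero _ (B.g_prime k).ne_zero))
      (pow_ne_zero _ (B.h_prime k).ne_zero)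

/-- the values agree with the node on the variables below `k` -/
def Agree (B : Bases Q) (k N : ℕ) (xs ys : ℕ → ℕ) : Prop :=
  ∀ i < k, (∀ x, Rp 5 2 x (sv B i N) → x = xs i) ∧ (∀ y, Rp 7 2 y (tv B i N) → y = ys i)

lemma prime5 : Nat.Prime 5 := by norm_num
lemma prime7 : Nat.Prime 7 := by norm_num

lemma Rp5_uniq {a a' n : ℕ} (h : Rp 5 2 a n) (h' : Rp 5 2 a' n) : a = a' :=
  Rp.uniq prime5 (by norm_num) h h'
lemma Rp7_uniq {a a' n : ℕ} (h : Rp 7 2 a n) (h' : Rp 7 2 a' n) : a = a' :=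
  Rp.uniq prime7 (by norm_num) h h'

lemma sound (B : Bases Q) (n : ℕ) (φ : Fm) : ∀ k N xs ys, φ.wf k →
    N ∈ toSet B (5 ^ (n + 3)) k φ → Agree B k N xs ys → φ.Holds n (Fct Q N) k xs ys := by
  induction φ with
  | fact τ i dx j dy =>
    rintro k N xs ys ⟨hi, hj⟩ ⟨hN, a, b, hs, ht, hF⟩ hA
    exact ⟨a, b, ((hA i hi).1 _ hs).symm, ((hA j hj).2 _ ht).symm, hF⟩
  | zs i =>
    rintro k N xs ys hi ⟨hN, hs⟩ hA
    exact ((hA i hi).1 _ hs).symm
  | zt i =>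
    rintro k N xs ys hi ⟨hN, hs⟩ hA
    exact ((hA i hi).2 _ hs).symm
  | par i =>
    rintro k N xs ys hi ⟨hN, hs⟩ hA
    exact ((hA i hi).1 n hs).symm
  | and φ ψ ihφ ihψ =>
    rintro k N xs ys ⟨h1, h2⟩ ⟨hs1, hs2⟩ hA
    exact ⟨ihφ k N xs ys h1 hs1 hA, ihψ k N xs ys h2 hs2 hA⟩
  | or φ ψ ihφ ihψ =>
    rintro k N xs ys ⟨h1, h2⟩ hs hA
    rcases hs with hs | hs
    · exact Or.inl (ihφ k N xs ys h1 hs hA)
    · exact Or.inr (ihψ k N xs ys h2 hs hA)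
  | ex φ ih =>
    rintro k N xs ys hwf ⟨M, ⟨hM, hAF⟩, e, f, rfl⟩ hA
    obtain ⟨hM0, x, y, hx, hy, hF⟩ := hAF
    refine ⟨x, y, (Fct_lower B k k e f M 0 x y).mpr hF, ?_⟩
    have hFeq : Fct Q (M * B.g k ^ e * B.h k ^ f) = Fct Q M := by
      funext τ a b; exact propext (Fct_lower B k k e f M τ a b)
    rw [hFeq]
    refine ih (k + 1) M _ _ hwf hM ?_
    intro i hi
    by_cases hik : i = k
    · subst hik
      refine ⟨fun z hz => ?_, fun z hz => ?_⟩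
      · rw [Function.update_self]; exact Rp5_uniq hz hx
      · rw [Function.update_self]; exact Rp7_uniq hz hy
    · have hi' : i < k := by omega
      refine ⟨fun z hz => ?_, fun z hz => ?_⟩
      · rw [Function.update_of_ne hik]
        exact (hA i hi').1 z (by rw [sv_lower B hM0 hik]; exact hz)
      · rw [Function.update_of_ne hik]
        exact (hA i hi').2 z (by rw [tv_lower B hM0 hik]; exact hz)

/-! ### Completeness -/

lemma complete (B : Bases Q) (n A K : ℕ) (φ : Fm) : ∀ k N xs ys, φ.wf k → k + φ.depth ≤ K →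
    N ≠ 0 → (∀ i < k, Rp 5 2 (xs i) (sv B i N) ∧ Rp 7 2 (ys i) (tv B i N)) →
    (∀ i < K, k ≤ i → 5 ^ A ≤ N.factorization (B.g i) ∧ 7 ^ A ≤ N.factorization (B.h i)) →
    (∀ x y, Fct Q N 0 x y → x ≤ A ∧ y ≤ A) →
    φ.Holds n (Fct Q N) k xs ys → N ∈ toSet B (5 ^ (n + 3)) k φ := by
  induction φ with
  | fact τ i dx j dy =>
    rintro k N xs ys ⟨hi, hj⟩ - hN hv - - ⟨a, b, ha, hb, hF⟩
    exact ⟨hN, a, b, ha ▸ (hv i hi).1, hb ▸ (hv j hj).2, hF⟩
  | zs i =>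
    rintro k N xs ys hi - hN hv - - h
    have h' : xs i = 0 := h
    exact ⟨hN, h' ▸ (hv i hi).1⟩
  | zt i =>
    rintro k N xs ys hi - hN hv - - h
    have h' : ys i = 0 := h
    exact ⟨hN, h' ▸ (hv i hi).2⟩
  | par i =>
    rintro k N xs ys hi - hN hv - - h
    have h' : xs i = n := h
    exact ⟨hN, h' ▸ (hv i hi).1⟩
  | and φ ψ ihφ ihψ =>
    rintro k N xs ys ⟨h1, h2⟩ hK hN hv ht hb ⟨hφ, hψ⟩
    have hd1 : k + φ.depth ≤ K := le_trans (by simp [Fm.depth]) hK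
    have hd2 : k + ψ.depth ≤ K := le_trans (by simp [Fm.depth]) hK
    exact ⟨ihφ k N xs ys h1 hd1 hN hv ht hb hφ, ihψ k N xs ys h2 hd2 hN hv ht hb hψ⟩
  | or φ ψ ihφ ihψ =>
    rintro k N xs ys ⟨h1, h2⟩ hK hN hv ht hb h
    have hd1 : k + φ.depth ≤ K := le_trans (by simp [Fm.depth]) hK
    have hd2 : k + ψ.depth ≤ K := le_trans (by simp [Fm.depth]) hK
    rcases h with h | h
    · exact Or.inl (ihφ k N xs ys h1 hd1 hN hv ht hb h)
    · exact Or.inr (ihψ k N xs ys h2 hd2 hN hv ht hb h)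
  | ex φ ih =>
    rintro k N xs ys hwf hK hN hv ht hb ⟨x, y, hF, hφ⟩
    have hK' : k + 1 + φ.depth ≤ K := by simp only [Fm.depth] at hK; omega
    have hg := B.g_prime k
    have hh := B.h_prime k
    have hgh := B.g_ne_h k k
    obtain ⟨hxA, hyA⟩ := hb x y hF
    obtain ⟨hge, hhe⟩ := ht k (by omega) le_rfl
    have hx5 : 5 ^ x ≤ N.factorization (B.g k) := le_trans (Nat.pow_le_pow_right (by norm_num) hxA) hge
    have hy7 : 7 ^ y ≤ N.factorization (B.h k) := le_trans (Nat.pow_le_pow_right (by norm_num) hyA) hhe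
    obtain ⟨c, hc, hNc⟩ := exists_compl hg hN
    have hc0 : c ≠ 0 := by rintro rfl; exact hc (dvd_zero _)
    obtain ⟨c', hc', hcc'⟩ := exists_compl hh hc0
    have hfp : fp (B.h k) c = fp (B.h k) N := by
      have := fp_mul_pow (e := N.factorization (B.g k)) hh hg hgh.symm hc0
      rw [← this, ← fp, mul_comm, ← hNc]
    rw [hfp] at hcc'
    have hgc' : ¬ B.g k ∣ c' := fun hd => hc (hcc' ▸ Dvd.dvd.mul_left hd _)
    obtain ⟨e, he⟩ := Nat.exists_eq_add_of_le hx5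
    obtain ⟨f, hf⟩ := Nat.exists_eq_add_of_le hy7
    set M := B.g k ^ (5 ^ x) * B.h k ^ (7 ^ y) * c' with hMdef
    have hc'0 : c' ≠ 0 := by rintro rfl; exact hc' (dvd_zero _)
    have hM0 : M ≠ 0 := mul_ne_zero (mul_ne_zero (pow_ne_zero _ hg.ne_zero)
      (pow_ne_zero _ hh.ne_zero)) hc'0
    have hNM : N = M * B.g k ^ e * B.h k ^ f := by
      rw [hMdef]
      conv_lhs => rw [hNc, hcc', fp, fp, he, hf]
      ring
    have hsvM : sv B k M = B.g k ^ (5 ^ x) :=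
      fp_of_eq hg (c := B.h k ^ (7 ^ y) * c') ⟨_, rfl⟩ (by
        rw [hg.dvd_mul]; exact fun h => h.elim (not_dvd_pow hg hh hgh) hgc') (by rw [hMdef]; ring)
    have htvM : tv B k M = B.h k ^ (7 ^ y) :=
      fp_of_eq hh (c := B.g k ^ (5 ^ x) * c') ⟨_, rfl⟩ (by
        rw [hh.dvd_mul]; exact fun h => h.elim (not_dvd_pow hh hg hgh.symm) hc')
        (by rw [hMdef]; ring)
    have hFeq : Fct Q N = Fct Q M := by
      funext τ a b; rw [hNM]; exact propext (Fct_lower B k k e f M τ a b)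
    have hsx : Rp 5 2 x (sv B k M) := by rw [hsvM]; exact pow_reg (B.g_rp k)
    have hty : Rp 7 2 y (tv B k M) := by rw [htvM]; exact pow_reg (B.h_rp k)
    refine ⟨M, ⟨?_, ⟨hM0, x, y, hsx, hty, by rw [← hFeq]; exact hF⟩⟩, e, f, hNM⟩
    refine ih (k + 1) M (Function.update xs k x) (Function.update ys k y) hwf hK' hM0 ?_ ?_ ?_ ?_
    · intro i hi
      by_cases hik : i = k
      · subst hik
        rw [Function.update_self, Function.update_self]
        exact ⟨hsx, hty⟩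
      · rw [Function.update_of_ne hik, Function.update_of_ne hik]
        have := hv i (by omega)
        rw [hNM, sv_lower B hM0 hik, tv_lower B hM0 hik] at this
        exact this
    · intro i hi hki
      have hik : i ≠ k := by omega
      have hh1 := ht i hi (by omega)
      have e1 : N.factorization (B.g i) = M.factorization (B.g i) := by
        rw [hNM, Nat.factorization_mul (mul_ne_zero hM0 (pow_ne_zero _ hg.ne_zero))
          (pow_ne_zero _ hh.ne_zero), Nat.factorization_mul hM0 (pow_ne_zero _ hg.ne_zero),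
          hg.factorization_pow, hh.factorization_pow]
        simp [(B.g_ne_h i k), (B.g_inj.ne hik)]
      have e2 : N.factorization (B.h i) = M.factorization (B.h i) := by
        rw [hNM, Nat.factorization_mul (mul_ne_zero hM0 (pow_ne_zero _ hg.ne_zero))
          (pow_ne_zero _ hh.ne_zero), Nat.factorization_mul hM0 (pow_ne_zero _ hg.ne_zero),
          hg.factorization_pow, hh.factorization_pow]
        simp [(B.g_ne_h k i).symm, (B.h_inj.ne hik)]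
      rw [← e1, ← e2]
      exact hh1
    · intro a b hab
      exact hb a b (by rw [hFeq]; exact hab)
    · rw [← hFeq]; exact hφ

end Pool.Agent.helper72.MC
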