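import Pool.Agent.helper72.MC.Num

set_option autoImplicit false

namespace Pool.Agent.helper72.MC

/-! ### Full powers of a prime in a number -/

/-- the full power of `g` dividing `N` -/
def fp (g N : ℕ) : ℕ := g ^ (N.factorization g)

lemma fact_of_eq {g e c N : ℕ} (hg : g.Prime) (hc : ¬ g ∣ c) (hN : N = g ^ e * c) :
    N.factorization g = e := by
  subst hN
  have hc0 : c ≠ 0 := by rintro rfl; exact hc (dvd_zero g)
  rw [Nat.factorization_mul (pow_ne_zero _ hg.ne_zero) hc0, hg.factorization_pow]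
  simp [Nat.factorization_eq_zero_of_not_dvd hc]

lemma fp_of_eq {g s c N : ℕ} (hg : g.Prime) (hs : s ∈ pw g) (hc : ¬ g ∣ c) (hN : N = s * c) :
    fp g N = s := by
  obtain ⟨e, rfl⟩ := hs
  rw [fp, fact_of_eq hg hc hN]

lemma exists_compl {g N : ℕ} (hg : g.Prime) (hN : N ≠ 0) : ∃ c, ¬ g ∣ c ∧ N = fp g N * c :=
  ⟨N / g ^ (N.factorization g), Nat.not_dvd_ordCompl hg hN, (Nat.ordProj_mul_ordCompl_eq_self N g).symm⟩

lemma fp_mem_pw (g N : ℕ) : fp g N ∈ pw g := ⟨_, rfl⟩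

lemma node_eq {g : ℕ} (hg : g.Prime) (X : Set ℕ) :
    {N | N ≠ 0 ∧ fp g N ∈ X} = smul (pw g ∩ X) (cop g) := by
  ext N
  constructor
  · rintro ⟨hN, hX⟩
    obtain ⟨c, hc, hNc⟩ := exists_compl hg hN
    exact ⟨fp g N, ⟨fp_mem_pw g N, hX⟩, c, hc, hNc⟩
  · rintro ⟨s, ⟨hs, hX⟩, c, hc, hNc⟩
    have h1 := fp_of_eq hg hs hc hNc
    refine ⟨?_, by rw [h1]; exact hX⟩
    rintro rfl
    obtain ⟨e, rfl⟩ := hs
    have hc' : ¬ g ∣ c := hc
    rcases Nat.mul_eq_zero.mp hNc.symm with h | h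
    · exact pow_ne_zero _ hg.ne_zero h
    · exact hc' (h ▸ dvd_zero g)

lemma fp_mul_pow {g h N e : ℕ} (hg : g.Prime) (hh : h.Prime) (hne : g ≠ h) (hN : N ≠ 0) :
    fp g (N * h ^ e) = fp g N := by
  unfold fp
  rw [Nat.factorization_mul hN (pow_ne_zero _ hh.ne_zero), hh.factorization_pow]
  simp [Finsupp.single_apply, hne.symm]

lemma dvd_mul_pow_iff {p h N e : ℕ} (hp : p.Prime) (hh : h.Prime) (hne : p ≠ h) :
    p ∣ N * h ^ e ↔ p ∣ N := by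
  constructor
  · intro hd
    rcases hp.dvd_mul.mp hd with h1 | h1
    · exact h1
    · exact (hne ((Nat.prime_dvd_prime_iff_eq hp hh).mp (hp.dvd_of_dvd_pow h1))).elim
  · intro hd; exact Dvd.dvd.mul_right hd _

/-! ### Base primes for the registers -/

/-- Families of primes used as bases of the registers. -/
structure Bases (Q : ℕ) where
  g : ℕ → ℕ
  h : ℕ → ℕ
  g_prime : ∀ i, (g i).Prime
  h_prime : ∀ i, (h i).Prime
  g_inj : Function.Injective g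
  h_inj : Function.Injective h
  g_rp : ∀ i, Rp 5 2 0 (g i)
  h_rp : ∀ i, Rp 7 2 0 (h i)
  g_mod : ∀ i, g i % Q = 1
  h_mod : ∀ i, h i % Q = 3

/-- the primes of type `τ` -/
def Pr (Q τ : ℕ) : Set ℕ :=
  {p | p.Prime ∧ (∃ a, Rp 5 1 a p) ∧ (∃ b, Rp 7 1 b p) ∧ p % Q = 2 * τ + 5}

/-- `N` contains a fact of type `τ` with coordinates `x`, `y` -/
def Fct (Q N τ x y : ℕ) : Prop :=
  ∃ p, p.Prime ∧ p ∣ N ∧ Rp 5 1 x p ∧ Rp 7 1 y p ∧ p % Q = 2 * τ + 5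

variable {Q : ℕ}

lemma Bases.g_ne_h (B : Bases Q) (i j : ℕ) : B.g i ≠ B.h j := by
  intro he
  have h1 := B.g_mod i
  have h2 := B.h_mod j
  rw [he] at h1
  omega

lemma Bases.ne_g (B : Bases Q) {p τ : ℕ} (hp : p % Q = 2 * τ + 5) (i : ℕ) : p ≠ B.g i := by
  intro he
  have h1 := B.g_mod i
  rw [← he] at h1
  omega

lemma Bases.ne_h (B : Bases Q) {p τ : ℕ} (hp : p % Q = 2 * τ + 5) (i : ℕ) : p ≠ B.h i := by
  intro he
  have h1 := B.h_mod i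
  rw [← he] at h1
  omega

/-- the s-register `i` of the node `N` -/
def sv (B : Bases Q) (i N : ℕ) : ℕ := fp (B.g i) N
/-- the t-register `i` of the node `N` -/
def tv (B : Bases Q) (i N : ℕ) : ℕ := fp (B.h i) N

/-- atomic node set -/
def AF (B : Bases Q) (τ i : ℕ) (dx : Bool) (j : ℕ) (dy : Bool) : Set ℕ :=
  {N | N ≠ 0 ∧ ∃ a b, Rp 5 2 (a + dx.toNat) (sv B i N) ∧ Rp 7 2 (b + dy.toNat) (tv B j N) ∧
    Fct Q N τ a b}

lemma not_dvd_mul3 {g a b c : ℕ} (hg : g.Prime) (ha : ¬ g ∣ a) (hb : ¬ g ∣ b) (hc : ¬ g ∣ c) :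
    ¬ g ∣ a * b * c := by
  rw [hg.dvd_mul, hg.dvd_mul]; tauto

lemma not_dvd_pow {g h e : ℕ} (hg : g.Prime) (hh : h.Prime) (hne : g ≠ h) : ¬ g ∣ h ^ e := by
  intro hd
  exact hne ((Nat.prime_dvd_prime_iff_eq hg hh).mp (hg.dvd_of_dvd_pow hd))

/-- the pair sets: register times fact prime in the right relation -/
def EqR (ℓ g : ℕ) (P : Set ℕ) (d : Bool) : Set ℕ :=
  smul (pw g ∩ {s | ∃ a, Rp ℓ 2 a s}) P ∩ Cls ℓ (res ℓ d)

lemma AF_eq (B : Bases Q) (τ i : ℕ) (dx : Bool) (j : ℕ) (dy : Bool) :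
    AF B τ i dx j dy =
      smul (smul (EqR 5 (B.g i) (Pr Q τ) dx) (pw (B.h j)) ∩
        smul (EqR 7 (B.h j) (Pr Q τ) dy) (pw (B.g i))) (cop (B.g i) ∩ cop (B.h j)) := by
  have hg := B.g_prime i
  have hh := B.h_prime j
  have hgh := B.g_ne_h i j
  have p5 : Nat.Prime 5 := by norm_num
  have p7 : Nat.Prime 7 := by norm_num
  ext N
  constructor
  · rintro ⟨hN, a, b, hs, ht, p, hp, hpN, hpa, hpb, hpQ⟩
    have hpg := B.ne_g hpQ i
    have hph := B.ne_h hpQ j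
    obtain ⟨c, hc, hNc⟩ := exists_compl hg hN
    have hc0 : c ≠ 0 := by rintro rfl; exact hc (dvd_zero _)
    obtain ⟨c', hc', hcc'⟩ := exists_compl hh hc0
    have hfp : fp (B.h j) c = fp (B.h j) N := by
      have := fp_mul_pow (e := N.factorization (B.g i)) hh hg hgh.symm hc0
      rw [← this, ← fp, mul_comm, ← hNc]
    rw [hfp] at hcc'
    have hpc : p ∣ c' := by
      rw [hNc, hcc'] at hpN
      rcases hp.dvd_mul.mp hpN with h1 | h1
      · exact (hpg ((Nat.prime_dvd_prime_iff_eq hp hg).mp (hp.dvd_of_dvd_pow h1))).elim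
      · rcases hp.dvd_mul.mp h1 with h2 | h2
        · exact (hph ((Nat.prime_dvd_prime_iff_eq hp hh).mp (hp.dvd_of_dvd_pow h2))).elim
        · exact h2
    obtain ⟨d, rfl⟩ := hpc
    have hgd : ¬ B.g i ∣ d := by
      intro hd
      apply hc
      rw [hcc']
      exact Dvd.dvd.mul_left (Dvd.dvd.mul_left hd _) _
    have hhd : ¬ B.h j ∣ d := fun hd => hc' (Dvd.dvd.mul_left hd _)
    have hP : p ∈ Pr Q τ := ⟨hp, ⟨a, hpa⟩, ⟨b, hpb⟩, hpQ⟩
    refine ⟨sv B i N * p * tv B j N, ⟨?_, ?_⟩, d, ⟨hgd, hhd⟩, ?_⟩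
    · refine ⟨sv B i N * p, ⟨⟨sv B i N, ⟨fp_mem_pw _ _, _, hs⟩, p, hP, rfl⟩, ?_⟩, tv B j N,
        fp_mem_pw _ _, rfl⟩
      rw [rel_iff p5 le_rfl dx hs hpa]
    · refine ⟨tv B j N * p, ⟨⟨tv B j N, ⟨fp_mem_pw _ _, _, ht⟩, p, hP, rfl⟩, ?_⟩, sv B i N,
        fp_mem_pw _ _, by ring⟩
      rw [rel_iff p7 (by norm_num) dy ht hpb]
    · unfold sv tv
      conv_lhs => rw [hNc, hcc']
      ring
  · rintro ⟨x, ⟨⟨y, ⟨⟨s, ⟨hs, a, hsa⟩, p, hp, rfl⟩, hrel⟩, t', ht', rfl⟩,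
      ⟨z, ⟨⟨t, ⟨ht, b, htb⟩, p', hp', rfl⟩, hrel'⟩, s', hs', hx⟩⟩, d, ⟨hgd, hhd⟩, rfl⟩
    have hgd' : ¬ B.g i ∣ d := hgd
    have hhd' : ¬ B.h j ∣ d := hhd
    obtain ⟨hpp, ⟨a', hpa⟩, ⟨b', hpb⟩, hpQ⟩ := hp
    obtain ⟨hpp', -, -, hpQ'⟩ := hp'
    have hpg := B.ne_g hpQ i
    have hph := B.ne_h hpQ j
    obtain ⟨e, rfl⟩ := hs
    obtain ⟨f', rfl⟩ := ht'
    obtain ⟨f, rfl⟩ := ht
    obtain ⟨e', rfl⟩ := hs'
    have hpeq : p = p' := by
      have hd : p ∣ B.h j ^ f * p' * B.g i ^ e' := by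
        rw [← hx]; exact Dvd.dvd.mul_right (Dvd.intro_left _ rfl) _
      rcases hpp.dvd_mul.mp hd with h1 | h1
      · rcases hpp.dvd_mul.mp h1 with h2 | h2
        · exact (not_dvd_pow hpp hh hph h2).elim
        · exact (Nat.prime_dvd_prime_iff_eq hpp hpp').mp h2
      · exact (not_dvd_pow hpp hg hpg h1).elim
    subst hpeq
    have hgp : ¬ B.g i ∣ p := fun hd => hpg ((Nat.prime_dvd_prime_iff_eq hg hpp).mp hd).symm
    have hhp : ¬ B.h j ∣ p := fun hd => hph ((Nat.prime_dvd_prime_iff_eq hh hpp).mp hd).symm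
    have hff : f = f' := by
      have h1 : (B.g i ^ e * p * B.h j ^ f').factorization (B.h j) = f' :=
        fact_of_eq hh (c := B.g i ^ e * p) (by
          rw [hh.dvd_mul]; exact fun h => h.elim (not_dvd_pow hh hg hgh.symm) hhp) (by ring)
      have h2 : (B.g i ^ e * p * B.h j ^ f').factorization (B.h j) = f := by
        rw [hx]
        exact fact_of_eq hh (c := p * B.g i ^ e') (by
          rw [hh.dvd_mul]; exact fun h => h.elim hhp (not_dvd_pow hh hg hgh.symm)) (by ring)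
      omega
    subst hff
    have hsv : sv B i (B.g i ^ e * p * B.h j ^ f * d) = B.g i ^ e :=
      fp_of_eq hg (s := B.g i ^ e) (c := p * B.h j ^ f * d) ⟨e, rfl⟩ (not_dvd_mul3 hg hgp (not_dvd_pow hg hh hgh) hgd') (by ring)
    have htv : tv B j (B.g i ^ e * p * B.h j ^ f * d) = B.h j ^ f :=
      fp_of_eq hh (s := B.h j ^ f) (c := p * B.g i ^ e * d) ⟨f, rfl⟩ (not_dvd_mul3 hh hhp (not_dvd_pow hh hg hgh.symm) hhd') (by ring)
    have ha := (rel_iff p5 le_rfl dx hsa hpa).mp hrel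
    have hb := (rel_iff p7 (by norm_num) dy htb hpb).mp hrel'
    refine ⟨?_, a', b', by rw [hsv, ← ha]; exact hsa, by rw [htv, ← hb]; exact htb,
      p, hpp, ?_, hpa, hpb, hpQ⟩
    · have hd0 : d ≠ 0 := by rintro rfl; exact hgd' (dvd_zero _)
      exact mul_ne_zero (mul_ne_zero (mul_ne_zero (pow_ne_zero _ hg.ne_zero) hpp.ne_zero)
        (pow_ne_zero _ hh.ne_zero)) hd0
    · exact Dvd.dvd.mul_right (Dvd.dvd.mul_right (Dvd.intro_left _ rfl) _) _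

end Pool.Agent.helper72.MC
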