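import Pool.Agent.helper72.MC.Base

set_option autoImplicit false

namespace Pool.Agent.helper72.MC

/-- `n` is `1 + ℓ^(a+3) * u` with `u ≡ c` modulo `ℓ^2` (and `u ≥ c`). -/
def Rp (ℓ c a n : ℕ) : Prop := ∃ k, n = 1 + ℓ ^ (a + 3) * (ℓ ^ 2 * k + c)

/-- `n` is `1 + ℓ^a * u` with `u ≡ c` modulo `ℓ^2` (and `u ≥ c`). -/
def Cls (ℓ c : ℕ) : Set ℕ := {n | ∃ a k, n = 1 + ℓ ^ a * (ℓ ^ 2 * k + c)}

lemma mem_Cls {ℓ c n : ℕ} : n ∈ Cls ℓ c ↔ ∃ a k, n = 1 + ℓ ^ a * (ℓ ^ 2 * k + c) := Iff.rfl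

lemma uniq {ℓ a a' k k' c c' : ℕ} (hℓ : ℓ.Prime) (hc : ¬ ℓ ∣ c) (hc' : ¬ ℓ ∣ c')
    (h : 1 + ℓ ^ a * (ℓ ^ 2 * k + c) = 1 + ℓ ^ a' * (ℓ ^ 2 * k' + c')) :
    a = a' ∧ c ≡ c' [MOD ℓ ^ 2] := by
  have h1 : ℓ ^ a * (ℓ ^ 2 * k + c) = ℓ ^ a' * (ℓ ^ 2 * k' + c') := by omega
  have hnd : ∀ k c, ¬ ℓ ∣ c → ¬ ℓ ∣ (ℓ ^ 2 * k + c) := by
    intro k c hc hd
    apply hc
    have : ℓ ∣ ℓ ^ 2 * k := Dvd.dvd.mul_right (dvd_pow_self ℓ (by norm_num)) k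
    exact (Nat.dvd_add_right this).mp hd
  have key : ∀ a a' u u' : ℕ, ¬ ℓ ∣ u → ℓ ^ a * u = ℓ ^ a' * u' → a' ≤ a := by
    intro a a' u u' hu he
    by_contra hlt
    push Not at hlt
    obtain ⟨d, rfl⟩ := Nat.exists_eq_add_of_lt hlt
    have : ℓ ^ a * u = ℓ ^ a * (ℓ * (ℓ ^ d * u')) := by rw [he]; ring
    have := Nat.eq_of_mul_eq_mul_left (Nat.pow_pos hℓ.pos) this
    exact hu ⟨_, this⟩
  have haa : a = a' := le_antisymm (key a' a _ _ (hnd _ _ hc') h1.symm) (key a a' _ _ (hnd _ _ hc) h1)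
  subst haa
  refine ⟨rfl, ?_⟩
  have h2 := Nat.eq_of_mul_eq_mul_left (Nat.pow_pos hℓ.pos) h1
  have h3 : (ℓ ^ 2 * k + c) % ℓ ^ 2 = (ℓ ^ 2 * k' + c') % ℓ ^ 2 := by rw [h2]
  rw [Nat.mul_add_mod, Nat.mul_add_mod] at h3
  exact h3

lemma Rp.uniq {ℓ c a a' n : ℕ} (hℓ : ℓ.Prime) (hc : ¬ ℓ ∣ c) (h : Rp ℓ c a n) (h' : Rp ℓ c a' n) :
    a = a' := by
  obtain ⟨k, hk⟩ := h; obtain ⟨k', hk'⟩ := h'
  have := (MC.uniq hℓ hc hc (hk.symm.trans hk')).1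
  omega

lemma Cls.disj {ℓ c c' n : ℕ} (hℓ : ℓ.Prime) (hc : ¬ ℓ ∣ c) (hc' : ¬ ℓ ∣ c')
    (hlt : c < ℓ ^ 2) (hlt' : c' < ℓ ^ 2) (hne : c ≠ c') (h : n ∈ Cls ℓ c) (h' : n ∈ Cls ℓ c') :
    False := by
  obtain ⟨a, k, hk⟩ := h; obtain ⟨a', k', hk'⟩ := h'
  have := (MC.uniq hℓ hc hc' (hk.symm.trans hk')).2
  exact hne (Nat.ModEq.eq_of_lt_of_lt this hlt hlt')

section prods
variable {ℓ s p : ℕ}

lemma prod_eq {a : ℕ} (hs : Rp ℓ 2 a s) (hp : Rp ℓ 1 a p) : s * p ∈ Cls ℓ 3 := by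
  obtain ⟨k, rfl⟩ := hs; obtain ⟨k', rfl⟩ := hp
  refine ⟨a + 3, k + k' + ℓ ^ (a + 1) * (ℓ ^ 2 * k + 2) * (ℓ ^ 2 * k' + 1), ?_⟩
  ring

lemma prod_above {b : ℕ} (hs : Rp ℓ 2 (b + 1) s) (hp : Rp ℓ 1 b p) : s * p ∈ Cls ℓ (2 * ℓ + 1) := by
  obtain ⟨k, rfl⟩ := hs; obtain ⟨k', rfl⟩ := hp
  refine ⟨b + 3, ℓ * k + k' + ℓ ^ (b + 2) * (ℓ ^ 2 * k + 2) * (ℓ ^ 2 * k' + 1), ?_⟩
  ring

lemma prod_reg_far {b j : ℕ} (hs : Rp ℓ 2 (b + j + 2) s) (hp : Rp ℓ 1 b p) : s * p ∈ Cls ℓ 1 := by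
  obtain ⟨k, rfl⟩ := hs; obtain ⟨k', rfl⟩ := hp
  refine ⟨b + 3, ℓ ^ j * (ℓ ^ 2 * k + 2) + k' +
    ℓ ^ (b + j + 3) * (ℓ ^ 2 * k + 2) * (ℓ ^ 2 * k' + 1), ?_⟩
  ring

lemma prod_fact_above {a : ℕ} (hs : Rp ℓ 2 a s) (hp : Rp ℓ 1 (a + 1) p) :
    s * p ∈ Cls ℓ (ℓ + 2) := by
  obtain ⟨k, rfl⟩ := hs; obtain ⟨k', rfl⟩ := hp
  refine ⟨a + 3, k + ℓ * k' + ℓ ^ (a + 2) * (ℓ ^ 2 * k + 2) * (ℓ ^ 2 * k' + 1), ?_⟩
  ring

lemma prod_fact_far {a j : ℕ} (hs : Rp ℓ 2 a s) (hp : Rp ℓ 1 (a + j + 2) p) :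
    s * p ∈ Cls ℓ 2 := by
  obtain ⟨k, rfl⟩ := hs; obtain ⟨k', rfl⟩ := hp
  refine ⟨a + 3, k + ℓ ^ j * (ℓ ^ 2 * k' + 1) +
    ℓ ^ (a + j + 3) * (ℓ ^ 2 * k + 2) * (ℓ ^ 2 * k' + 1), ?_⟩
  ring

/-- residues: `false` for equality, `true` for a fact coordinate one less -/
def res (ℓ : ℕ) (d : Bool) : ℕ := if d then 2 * ℓ + 1 else 3

variable (hℓ : ℓ.Prime) (h5 : 5 ≤ ℓ)
include hℓ h5

lemma nd1 : ¬ ℓ ∣ 1 := by
  intro h; have := Nat.le_of_dvd (by norm_num) h; omega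
lemma nd2 : ¬ ℓ ∣ 2 := by
  intro h; have := Nat.le_of_dvd (by norm_num) h; omega
lemma nd3 : ¬ ℓ ∣ 3 := by
  intro h; have := Nat.le_of_dvd (by norm_num) h; omega
lemma nd2l : ¬ ℓ ∣ 2 * ℓ + 1 := by
  intro h; exact nd1 hℓ h5 ((Nat.dvd_add_right (Dvd.intro_left 2 rfl)).mp h)
lemma ndl : ¬ ℓ ∣ ℓ + 2 := by
  intro h; exact nd2 hℓ h5 ((Nat.dvd_add_right (dvd_refl ℓ)).mp h)

/-- The trichotomy (in five classes) of the product of a register and a fact. -/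
lemma prod_cases {a b : ℕ} (hs : Rp ℓ 2 a s) (hp : Rp ℓ 1 b p) :
    (a = b ∧ s * p ∈ Cls ℓ 3) ∨ (a = b + 1 ∧ s * p ∈ Cls ℓ (2 * ℓ + 1)) ∨
    (b + 2 ≤ a ∧ s * p ∈ Cls ℓ 1) ∨ (b = a + 1 ∧ s * p ∈ Cls ℓ (ℓ + 2)) ∨
    (a + 2 ≤ b ∧ s * p ∈ Cls ℓ 2) := by
  rcases lt_trichotomy a b with hab | hab | hab
  · obtain ⟨j, rfl⟩ := Nat.exists_eq_add_of_lt hab
    rcases j with _ | j
    · exact Or.inr (Or.inr (Or.inr (Or.inl ⟨by omega, prod_fact_above hs hp⟩)))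
    · refine Or.inr (Or.inr (Or.inr (Or.inr ⟨by omega, prod_fact_far (j := j) hs ?_⟩)))
      have : a + j + 2 = a + (j + 1) + 1 := by ring
      rw [this]; exact hp
  · subst hab
    exact Or.inl ⟨rfl, prod_eq hs hp⟩
  · obtain ⟨j, rfl⟩ := Nat.exists_eq_add_of_lt hab
    rcases j with _ | j
    · exact Or.inr (Or.inl ⟨by omega, prod_above hs hp⟩)
    · refine Or.inr (Or.inr (Or.inl ⟨by omega, prod_reg_far (j := j) ?_ hp⟩))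
      have : b + j + 2 = b + (j + 1) + 1 := by ring
      rw [this]; exact hs

lemma lt_sq : 2 * ℓ + 1 < ℓ ^ 2 := by nlinarith

lemma rel_iff {a b : ℕ} (d : Bool) (hs : Rp ℓ 2 a s) (hp : Rp ℓ 1 b p) :
    s * p ∈ Cls ℓ (res ℓ d) ↔ a = b + d.toNat := by
  have n1 := nd1 hℓ h5
  have n2 := nd2 hℓ h5
  have n3 := nd3 hℓ h5
  have n4 := nd2l hℓ h5
  have n5 := ndl hℓ h5
  have hsq := lt_sq hℓ h5
  cases d
  · simp only [res, Bool.false_eq_true, if_false, Bool.toNat_false, add_zero]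
    rcases prod_cases hℓ h5 hs hp with ⟨h, h'⟩ | ⟨h, h'⟩ | ⟨h, h'⟩ | ⟨h, h'⟩ | ⟨h, h'⟩
    · exact ⟨fun _ => h, fun _ => h'⟩
    · exact ⟨fun h3 => (Cls.disj hℓ n3 n4 (by omega) (by omega) (by omega) h3 h').elim,
        fun h3 => by omega⟩
    · exact ⟨fun h3 => (Cls.disj hℓ n3 n1 (by omega) (by omega) (by omega) h3 h').elim,
        fun h3 => by omega⟩
    · exact ⟨fun h3 => (Cls.disj hℓ n3 n5 (by omega) (by omega) (by omega) h3 h').elim,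
        fun h3 => by omega⟩
    · exact ⟨fun h3 => (Cls.disj hℓ n3 n2 (by omega) (by omega) (by omega) h3 h').elim,
        fun h3 => by omega⟩
  · simp only [res, if_true, Bool.toNat_true]
    rcases prod_cases hℓ h5 hs hp with ⟨h, h'⟩ | ⟨h, h'⟩ | ⟨h, h'⟩ | ⟨h, h'⟩ | ⟨h, h'⟩
    · exact ⟨fun h3 => (Cls.disj hℓ n4 n3 (by omega) (by omega) (by omega) h3 h').elim,
        fun h3 => by omega⟩
    · exact ⟨fun _ => h, fun _ => h'⟩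
    · exact ⟨fun h3 => (Cls.disj hℓ n4 n1 (by omega) (by omega) (by omega) h3 h').elim,
        fun h3 => by omega⟩
    · exact ⟨fun h3 => (Cls.disj hℓ n4 n5 (by omega) (by omega) (by omega) h3 h').elim,
        fun h3 => by omega⟩
    · exact ⟨fun h3 => (Cls.disj hℓ n4 n2 (by omega) (by omega) (by omega) h3 h').elim,
        fun h3 => by omega⟩

/-- the set of products telling that the fact coordinate is at most the register coordinate -/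
lemma rel_le {a b : ℕ} (hs : Rp ℓ 2 a s) (hp : Rp ℓ 1 b p) :
    s * p ∈ Cls ℓ 1 ∪ Cls ℓ 3 ∪ Cls ℓ (2 * ℓ + 1) ↔ b ≤ a := by
  have n1 := nd1 hℓ h5
  have n2 := nd2 hℓ h5
  have n3 := nd3 hℓ h5
  have n4 := nd2l hℓ h5
  have n5 := ndl hℓ h5
  have hsq := lt_sq hℓ h5
  simp only [Set.mem_union]
  rcases prod_cases hℓ h5 hs hp with ⟨h, h'⟩ | ⟨h, h'⟩ | ⟨h, h'⟩ | ⟨h, h'⟩ | ⟨h, h'⟩
  · exact ⟨fun _ => by omega, fun _ => Or.inl (Or.inr h')⟩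
  · exact ⟨fun _ => by omega, fun _ => Or.inr h'⟩
  · exact ⟨fun _ => by omega, fun _ => Or.inl (Or.inl h')⟩
  · refine ⟨?_, fun h3 => by omega⟩
    rintro ((h3 | h3) | h3)
    · exact (Cls.disj hℓ n1 n5 (by omega) (by omega) (by omega) h3 h').elim
    · exact (Cls.disj hℓ n3 n5 (by omega) (by omega) (by omega) h3 h').elim
    · exact (Cls.disj hℓ n4 n5 (by omega) (by omega) (by omega) h3 h').elim
  · refine ⟨?_, fun h3 => by omega⟩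
    rintro ((h3 | h3) | h3)
    · exact (Cls.disj hℓ n1 n2 (by omega) (by omega) (by omega) h3 h').elim
    · exact (Cls.disj hℓ n3 n2 (by omega) (by omega) (by omega) h3 h').elim
    · exact (Cls.disj hℓ n4 n2 (by omega) (by omega) (by omega) h3 h').elim

omit hℓ h5 in
lemma one_add_pow_eq (X n : ℕ) : ∃ r, (1 + X) ^ n = 1 + n * X + X ^ 2 * r := by
  induction n with
  | zero => exact ⟨0, by simp⟩
  | succ n ih =>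
    obtain ⟨r, hr⟩ := ih
    refine ⟨n + r + X * r, ?_⟩
    rw [pow_succ, hr]
    push_cast
    ring

omit hℓ h5 in
lemma pow_reg_step {a c : ℕ} (hs : Rp ℓ c a s) : Rp ℓ c (a + 1) (s ^ ℓ) := by
  obtain ⟨k, rfl⟩ := hs
  obtain ⟨r, hr⟩ := one_add_pow_eq (ℓ ^ (a + 3) * (ℓ ^ 2 * k + c)) ℓ
  refine ⟨k + ℓ ^ a * (ℓ ^ 2 * k + c) ^ 2 * r, ?_⟩
  rw [hr]
  ring

omit hℓ h5 in
lemma pow_reg {c a : ℕ} (hs : Rp ℓ c 0 s) : Rp ℓ c a (s ^ (ℓ ^ a)) := by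
  induction a with
  | zero => simpa using hs
  | succ a ih =>
    have := pow_reg_step ih
    rwa [← pow_mul, ← pow_succ] at this

lemma pow_dvd {a e : ℕ} (hs : Rp ℓ 2 0 s) (he : Rp ℓ 2 a (s ^ e)) : ℓ ^ a ∣ e ∧ e ≠ 0 := by
  have he0 : e ≠ 0 := by
    rintro rfl
    obtain ⟨k, hk⟩ := he
    rw [pow_zero] at hk
    have : 0 < ℓ ^ (a + 3) * (ℓ ^ 2 * k + 2) := by have := hℓ.pos; positivity
    omega
  refine ⟨?_, he0⟩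
  have hs1 : 1 < s := by
    obtain ⟨k, rfl⟩ := hs
    have : 0 < ℓ ^ (0 + 3) * (ℓ ^ 2 * k + 2) := by have := hℓ.pos; positivity
    omega
  haveI : Fact ℓ.Prime := ⟨hℓ⟩
  have hodd : Odd ℓ := hℓ.odd_of_ne_two (by omega)
  have hval : ∀ a n, Rp ℓ 2 a n → padicValNat ℓ (n - 1) = a + 3 := by
    rintro a n ⟨k, rfl⟩
    rw [Nat.add_sub_cancel_left]
    have hnd : ¬ ℓ ∣ ℓ ^ 2 * k + 2 := by
      intro hd
      have : ℓ ∣ ℓ ^ 2 * k := Dvd.dvd.mul_right (dvd_pow_self ℓ (by norm_num)) k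
      exact nd2 hℓ h5 ((Nat.dvd_add_right this).mp hd)
    rw [padicValNat.mul (pow_ne_zero _ hℓ.ne_zero) (by omega), padicValNat.prime_pow,
      padicValNat.eq_zero_of_not_dvd hnd, add_zero]
  have h1 := hval 0 s hs
  have h2 := hval a _ he
  have hdvd : ℓ ∣ s - 1 := by
    obtain ⟨k, rfl⟩ := hs
    rw [Nat.add_sub_cancel_left]
    exact Dvd.dvd.mul_right (dvd_pow_self ℓ (by norm_num)) _
  have hns : ¬ ℓ ∣ s := by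
    intro hd
    have := (Nat.dvd_sub_iff_right (Nat.le_of_lt hs1) hd).mp hdvd
    exact nd1 hℓ h5 this
  have h3 := padicValNat.pow_sub_pow (p := ℓ) hodd (x := s) (y := 1) hs1 hdvd hns he0
  rw [one_pow, h2, h1] at h3
  have h4 : padicValNat ℓ e = a := by omega
  rw [← h4]
  exact pow_padicValNat_dvd

end prods

end Pool.Agent.helper72.MC
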