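import Pool.Agent.helper72.MC.Node

set_option autoImplicit false

namespace Pool.Agent.helper72.MC

lemma Rp_of_modEq {ℓ c a p : ℕ} (h : p ≡ 1 + ℓ ^ (a + 3) * c [MOD ℓ ^ (a + 5)])
    (hlt : 1 + ℓ ^ (a + 3) * c < p) : Rp ℓ c a p := by
  have h2 := (Nat.modEq_iff_dvd' hlt.le).mp h.symm
  obtain ⟨k, hk⟩ := h2
  refine ⟨k, ?_⟩
  have : p = 1 + ℓ ^ (a + 3) * c + ℓ ^ (a + 5) * k := by omega
  rw [this]; ring

lemma coprime_of_modEq {ℓ c a w : ℕ} (hℓ : ℓ.Prime)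
    (h : w ≡ 1 + ℓ ^ (a + 3) * c [MOD ℓ ^ (a + 5)]) : Nat.Coprime w ℓ := by
  have h1 : w ≡ 1 + ℓ ^ (a + 3) * c [MOD ℓ] :=
    h.of_dvd (dvd_pow_self ℓ (by omega))
  have h2 : 1 + ℓ ^ (a + 3) * c ≡ 1 [MOD ℓ] := by
    have : ℓ ^ (a + 3) * c ≡ 0 [MOD ℓ] :=
      (Nat.modEq_zero_iff_dvd).mpr (Dvd.dvd.mul_right (dvd_pow_self ℓ (by omega)) _)
    simpa using Nat.ModEq.add_left 1 this
  have h3 : w ≡ 1 [MOD ℓ] := h1.trans h2
  rw [Nat.coprime_comm, hℓ.coprime_iff_not_dvd]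
  intro hd
  have h4 : w ≡ 0 [MOD ℓ] := (Nat.modEq_zero_iff_dvd).mpr hd
  have h5 : (1 : ℕ) ≡ 0 [MOD ℓ] := h3.symm.trans h4
  have := (Nat.modEq_zero_iff_dvd).mp h5
  exact hℓ.one_lt.ne' (Nat.dvd_one.mp this)

/-- Dirichlet's theorem in the form used: prescribed coordinates and residue. -/
lemma exists_prime (q c c' x y r n0 : ℕ) (hr : r % 2 = 1) (hrQ : r < 2 ^ q) :
    ∃ p > n0, p.Prime ∧ Rp 5 c x p ∧ Rp 7 c' y p ∧ p % 2 ^ q = r := by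
  have p5 : Nat.Prime 5 := by norm_num
  have p7 : Nat.Prime 7 := by norm_num
  have c57 : Nat.Coprime (5 ^ (x + 5)) (7 ^ (y + 5)) := Nat.Coprime.pow _ _ (by norm_num)
  obtain ⟨z, hz1, hz2⟩ := Nat.chineseRemainder c57 (1 + 5 ^ (x + 3) * c) (1 + 7 ^ (y + 3) * c')
  have cQ : Nat.Coprime (5 ^ (x + 5) * 7 ^ (y + 5)) (2 ^ q) :=
    Nat.Coprime.mul_left (Nat.Coprime.pow _ _ (by norm_num)) (Nat.Coprime.pow _ _ (by norm_num))
  obtain ⟨w, hw1, hw2⟩ := Nat.chineseRemainder cQ z r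
  have hw5 : w ≡ 1 + 5 ^ (x + 3) * c [MOD 5 ^ (x + 5)] :=
    (hw1.of_dvd (Dvd.intro _ rfl)).trans hz1
  have hw7 : w ≡ 1 + 7 ^ (y + 3) * c' [MOD 7 ^ (y + 5)] :=
    (hw1.of_dvd (Dvd.intro_left _ rfl)).trans hz2
  have hcop : Nat.Coprime w (5 ^ (x + 5) * 7 ^ (y + 5) * 2 ^ q) := by
    refine Nat.Coprime.mul_right (Nat.Coprime.mul_right ?_ ?_) ?_
    · exact Nat.Coprime.pow_right _ (coprime_of_modEq p5 hw5)
    · exact Nat.Coprime.pow_right _ (coprime_of_modEq p7 hw7)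
    · rcases q with _ | q
      · simp
      · refine Nat.Coprime.pow_right _ ?_
        have h1 : w ≡ r [MOD 2] := hw2.of_dvd (dvd_pow_self 2 (by omega))
        rw [Nat.coprime_comm, Nat.prime_two.coprime_iff_not_dvd]
        have h2 : w % 2 = r % 2 := h1
        omega
  obtain ⟨p, hp, hpp, hpm⟩ := Nat.forall_exists_prime_gt_and_modEq
    (n0 + (1 + 5 ^ (x + 3) * c) + (1 + 7 ^ (y + 3) * c')) (q := 5 ^ (x + 5) * 7 ^ (y + 5) * 2 ^ q)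
    (by positivity) hcop
  refine ⟨p, by omega, hpp, ?_, ?_, ?_⟩
  · refine Rp_of_modEq ((hpm.of_dvd ?_).trans hw5) (by omega)
    exact Dvd.intro (7 ^ (y + 5) * 2 ^ q) (by ring)
  · refine Rp_of_modEq ((hpm.of_dvd ?_).trans hw7) (by omega)
    exact Dvd.intro (5 ^ (x + 5) * 2 ^ q) (by ring)
  · have h1 : p ≡ r [MOD 2 ^ q] := (hpm.of_dvd (Dvd.intro_left _ rfl)).trans hw2
    have h2 : p % 2 ^ q = r % 2 ^ q := h1
    rw [h2, Nat.mod_eq_of_lt hrQ]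

lemma exists_bases (q : ℕ) (hq : 3 ≤ q) : Nonempty (Bases (2 ^ q)) := by
  have hQ : 2 ^ 3 ≤ 2 ^ q := Nat.pow_le_pow_right (by norm_num) hq
  have i1 : {p : ℕ | p.Prime ∧ Rp 5 2 0 p ∧ p % 2 ^ q = 1}.Infinite := by
    rw [Set.infinite_iff_exists_gt]
    intro n0
    obtain ⟨p, hp, hpp, h1, -, h3⟩ := exists_prime q 2 2 0 0 1 n0 (by norm_num) (by omega)
    exact ⟨p, ⟨hpp, h1, h3⟩, hp⟩
  have i2 : {p : ℕ | p.Prime ∧ Rp 7 2 0 p ∧ p % 2 ^ q = 3}.Infinite := by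
    rw [Set.infinite_iff_exists_gt]
    intro n0
    obtain ⟨p, hp, hpp, -, h2, h3⟩ := exists_prime q 2 2 0 0 3 n0 (by norm_num) (by omega)
    exact ⟨p, ⟨hpp, h2, h3⟩, hp⟩
  let e1 := i1.natEmbedding
  let e2 := i2.natEmbedding
  exact ⟨{
    g := fun i => (e1 i : ℕ)
    h := fun i => (e2 i : ℕ)
    g_prime := fun i => (e1 i).2.1
    h_prime := fun i => (e2 i).2.1
    g_inj := fun i j hij => e1.injective (Subtype.ext hij)
    h_inj := fun i j hij => e2.injective (Subtype.ext hij)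
    g_rp := fun i => (e1 i).2.2.1
    h_rp := fun i => (e2 i).2.2.1
    g_mod := fun i => (e1 i).2.2.2
    h_mod := fun i => (e2 i).2.2.2 }⟩

end Pool.Agent.helper72.MC
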