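import Pool.Agent.helper72.MC.Logic
import Pool.Agent.helper72.MC.Primes

set_option autoImplicit false

namespace Pool.Agent.helper72.MC

variable {Q : ℕ}

/-- assignment of the first two variables -/
def asg (x y : ℕ) : ℕ → ℕ := fun i => if i = 0 then x else if i = 1 then y else 0

lemma asg_zero (x y : ℕ) : asg x y 0 = x := rfl
lemma asg_one (x y : ℕ) : asg x y 1 = y := rfl

/-- lowering the exponents of two primes -/
lemma exists_lower {g h N e0 f0 : ℕ} (hg : g.Prime) (hh : h.Prime) (hgh : g ≠ h) (hN : N ≠ 0)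
    (he0 : e0 ≤ N.factorization g) (hf0 : f0 ≤ N.factorization h) :
    ∃ M e f, M ≠ 0 ∧ N = M * g ^ e * h ^ f ∧ fp g M = g ^ e0 ∧ fp h M = h ^ f0 := by
  obtain ⟨c, hc, hNc⟩ := exists_compl hg hN
  have hc0 : c ≠ 0 := by rintro rfl; exact hc (dvd_zero _)
  obtain ⟨c', hc', hcc'⟩ := exists_compl hh hc0
  have hfp : fp h c = fp h N := by
    have := fp_mul_pow (e := N.factorization g) hh hg hgh.symm hc0
    rw [← this, ← fp, mul_comm, ← hNc]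
  rw [hfp] at hcc'
  have hgc' : ¬ g ∣ c' := fun hd => hc (hcc' ▸ Dvd.dvd.mul_left hd _)
  obtain ⟨e, he⟩ := Nat.exists_eq_add_of_le he0
  obtain ⟨f, hf⟩ := Nat.exists_eq_add_of_le hf0
  have hc'0 : c' ≠ 0 := by rintro rfl; exact hc' (dvd_zero _)
  refine ⟨g ^ e0 * h ^ f0 * c', e, f, ?_, ?_, ?_, ?_⟩
  · exact mul_ne_zero (mul_ne_zero (pow_ne_zero _ hg.ne_zero) (pow_ne_zero _ hh.ne_zero)) hc'0
  · conv_lhs => rw [hNc, hcc', fp, fp, he, hf]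
    ring
  · exact fp_of_eq hg (c := h ^ f0 * c') ⟨_, rfl⟩ (by
      rw [hg.dvd_mul]; exact fun h => h.elim (not_dvd_pow hg hh hgh) hgc') (by ring)
  · exact fp_of_eq hh (c := g ^ e0 * c') ⟨_, rfl⟩ (by
      rw [hh.dvd_mul]; exact fun h => h.elim (not_dvd_pow hh hg hgh.symm) hc') (by ring)

/-- products of a register (full power of `g`) with a prime of `P` outside `C` -/
def Bnd (ℓ g : ℕ) (P : Set ℕ) (C : Set ℕ) : Set ℕ :=
  {N | N ≠ 0 ∧ (∃ a, Rp ℓ 2 a (fp g N)) ∧ ∃ p ∈ P, p ∣ N ∧ fp g N * p ∉ C}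

lemma Bnd_eq {ℓ g : ℕ} (hg : g.Prime) {P : Set ℕ} (hP : ∀ p ∈ P, p.Prime ∧ p ≠ g) (C : Set ℕ) :
    Bnd ℓ g P C = smul (smul (pw g ∩ {s | ∃ a, Rp ℓ 2 a s}) P \ C) (cop g) := by
  ext N
  constructor
  · rintro ⟨hN, ha, p, hp, hpN, hC⟩
    obtain ⟨hpp, hpg⟩ := hP p hp
    obtain ⟨c, hc, hNc⟩ := exists_compl hg hN
    have hpc : p ∣ c := by
      rw [hNc] at hpN
      rcases hpp.dvd_mul.mp hpN with h1 | h1
      · exact (not_dvd_pow hpp hg hpg h1).elim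
      · exact h1
    obtain ⟨d, rfl⟩ := hpc
    refine ⟨fp g N * p, ⟨⟨fp g N, ⟨fp_mem_pw g N, ha⟩, p, hp, rfl⟩, hC⟩, d, ?_, ?_⟩
    · exact fun hd => hc (Dvd.dvd.mul_left hd _)
    · conv_lhs => rw [hNc]
      ring
  · rintro ⟨x, ⟨⟨s, ⟨hs, ha⟩, p, hp, rfl⟩, hC⟩, d, hd, rfl⟩
    obtain ⟨hpp, hpg⟩ := hP p hp
    have hd' : ¬ g ∣ d := hd
    have hgp : ¬ g ∣ p := fun h => hpg ((Nat.prime_dvd_prime_iff_eq hg hpp).mp h).symm
    have hfp : fp g (s * p * d) = s :=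
      fp_of_eq hg hs (c := p * d) (by rw [hg.dvd_mul]; tauto) (by ring)
    refine ⟨?_, ?_, p, hp, ?_, ?_⟩
    · obtain ⟨e, rfl⟩ := hs
      refine mul_ne_zero (mul_ne_zero (pow_ne_zero _ hg.ne_zero) hpp.ne_zero) ?_
      rintro rfl; exact hd' (dvd_zero _)
    · rw [hfp]; exact ha
    · exact Dvd.dvd.mul_right (Dvd.intro_left _ rfl) _
    · rw [hfp]; exact hC

/-- the set of good products: coordinate of the fact at most that of the register -/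
def LeC (ℓ : ℕ) : Set ℕ := Cls ℓ 1 ∪ Cls ℓ 3 ∪ Cls ℓ (2 * ℓ + 1)

/-- the nodes at which the rule for facts of type `τ` is satisfied by a choice of the two other
registers -/
def Jus (B : Bases Q) (Φ : Fm) (v : ℕ) : Set ℕ :=
  {M | ∃ M' ∈ toSet B v 2 Φ ∩ (AF B 0 0 false 0 false ∩ AF B 0 1 false 1 false),
    ∃ e f, M = M' * B.g 1 ^ e * B.h 0 ^ f}

/-- numbers violating the rule for facts of type `τ` -/
def Viol (B : Bases Q) (τ : ℕ) (Φ : Fm) (v : ℕ) : Set ℕ :=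
  {N | ∃ M ∈ AF B τ 0 false 1 false \ Jus B Φ v, ∃ e f, N = M * B.g 0 ^ e * B.h 1 ^ f}

/-- The numbers coding a justified set of facts satisfying the goal. -/
def Sol (B : Bases Q) (m : ℕ) (Φ : ℕ → Fm) (G : Fm) (v : ℕ) : Set ℕ :=
  ({N | N ≠ 0 ∧ fp (B.g 0) N ∈ {s | ∃ a, Rp 5 2 a s}} ∩
    {N | N ≠ 0 ∧ fp (B.h 1) N ∈ {s | ∃ a, Rp 7 2 a s}}) ∩
  ({N | ∀ τ < m, N ∈ ((Bnd 5 (B.g 0) (Pr Q τ) (LeC 5))ᶜ ∩ (Bnd 7 (B.h 1) (Pr Q τ) (LeC 7))ᶜ) ∩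
    (Viol B τ (Φ τ) v)ᶜ} ∩ toSet B v 0 G)

lemma Pr_spec_g (B : Bases Q) (τ i : ℕ) : ∀ p ∈ Pr Q τ, p.Prime ∧ p ≠ B.g i :=
  fun _ hp => ⟨hp.1, B.ne_g hp.2.2.2 i⟩
lemma Pr_spec_h (B : Bases Q) (τ i : ℕ) : ∀ p ∈ Pr Q τ, p.Prime ∧ p ≠ B.h i :=
  fun _ hp => ⟨hp.1, B.ne_h hp.2.2.2 i⟩

lemma Def.LeC {ℓ : ℕ} (hℓ : ℓ.Prime) : Def (fun _ => LeC ℓ) :=
  ((Def.Cls hℓ 1).union (Def.Cls hℓ 3)).union (Def.Cls hℓ (2 * ℓ + 1))

lemma Def.Bnd {ℓ g : ℕ} (hℓ : ℓ.Prime) (hg : g.Prime) {P : Set ℕ} (hDP : Def (fun _ => P))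
    (hP : ∀ p ∈ P, p.Prime ∧ p ≠ g) : Def (fun _ => Bnd ℓ g P (MC.LeC ℓ)) := by
  refine Def.congr (f := fun _ => _) ?_ (fun _ => (Bnd_eq hg hP (MC.LeC ℓ)).symm)
  exact ((((Def.pw hg).inter (Def.RpEx hℓ 2)).mul hDP).diff (Def.LeC hℓ)).mul (Def.cop g)

lemma Def.Sol (hQ : 0 < Q) (B : Bases Q) (m : ℕ) (Φ : ℕ → Fm) (G : Fm) :
    Def (fun v => Sol B m Φ G v) := by
  refine Def.inter (Def.inter (Def.node (B.g_prime 0) (Def.RpEx prime5 2))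
    (Def.node (B.h_prime 1) (Def.RpEx prime7 2))) (Def.inter ?_ (Def.toSet hQ B G 0))
  refine Def.iInterLt m _ ?_
  intro τ _
  refine Def.inter (Def.inter ?_ ?_) ?_
  · exact (Def.Bnd prime5 (B.g_prime 0) (Def.Pr hQ τ) (Pr_spec_g B τ 0)).compl
  · exact (Def.Bnd prime7 (B.h_prime 1) (Def.Pr hQ τ) (Pr_spec_h B τ 1)).compl
  · refine (Def.lower (B.g_prime 0) (B.h_prime 1) ?_).compl
    refine (Def.AF hQ B τ 0 false 1 false).diff ?_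
    exact Def.lower (B.g_prime 1) (B.h_prime 0) ((Def.toSet hQ B (Φ τ) 2).inter
      ((Def.AF hQ B 0 0 false 0 false).inter (Def.AF hQ B 0 1 false 1 false)))

/-! ### Soundness -/

theorem Sol_sound (B : Bases Q) (m n : ℕ) (Φ : ℕ → Fm) (G : Fm) (hΦ : ∀ τ < m, (Φ τ).wf 2)
    (hG : G.wf 0) {N : ℕ} (hN : N ∈ Sol B m Φ G (5 ^ (n + 3))) :
    (∀ τ < m, ∀ x y, Fct Q N τ x y → ∃ y0 x1, Fct Q N 0 x y0 ∧ Fct Q N 0 x1 y ∧
      (Φ τ).Holds n (Fct Q N) 2 (asg x x1) (asg y0 y)) ∧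
    G.Holds n (Fct Q N) 0 (fun _ => 0) (fun _ => 0) := by
  obtain ⟨⟨⟨hN0, a0, ha0⟩, ⟨-, b0, hb0⟩⟩, hrules, hgoal⟩ := hN
  refine ⟨?_, ?_⟩
  · intro τ hτ x y hF
    obtain ⟨⟨hb1, hb2⟩, hv⟩ := hrules τ hτ
    obtain ⟨p, hp, hpN, hpx, hpy, hpQ⟩ := hF
    have hpP : p ∈ Pr Q τ := ⟨hp, ⟨x, hpx⟩, ⟨y, hpy⟩, hpQ⟩
    have hx : x ≤ a0 := by
      by_contra hcon
      apply hb1
      refine ⟨hN0, ⟨a0, ha0⟩, p, hpP, hpN, ?_⟩
      intro hC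
      exact hcon ((rel_le prime5 le_rfl ha0 hpx).mp hC)
    have hy : y ≤ b0 := by
      by_contra hcon
      apply hb2
      refine ⟨hN0, ⟨b0, hb0⟩, p, hpP, hpN, ?_⟩
      intro hC
      exact hcon ((rel_le prime7 (by norm_num) hb0 hpy).mp hC)
    have hgd := pow_dvd prime5 le_rfl (B.g_rp 0) ha0
    have hhd := pow_dvd prime7 (by norm_num) (B.h_rp 1) hb0
    have he : 5 ^ x ≤ N.factorization (B.g 0) :=
      le_trans (Nat.pow_le_pow_right (by norm_num) hx) (Nat.le_of_dvd (Nat.pos_of_ne_zero hgd.2) hgd.1)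
    have hf : 7 ^ y ≤ N.factorization (B.h 1) :=
      le_trans (Nat.pow_le_pow_right (by norm_num) hy) (Nat.le_of_dvd (Nat.pos_of_ne_zero hhd.2) hhd.1)
    obtain ⟨M, e, f, hM0, hNM, hs, ht⟩ :=
      exists_lower (B.g_prime 0) (B.h_prime 1) (B.g_ne_h 0 1) hN0 he hf
    have hFM : ∀ τ' a b, Fct Q M τ' a b ↔ Fct Q N τ' a b := by
      intro τ' a b; rw [hNM]; exact (Fct_lower B 0 1 e f M τ' a b).symm
    have hsM : Rp 5 2 x (sv B 0 M) := by unfold sv; rw [hs]; exact pow_reg (B.g_rp 0)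
    have htM : Rp 7 2 y (tv B 1 M) := by unfold tv; rw [ht]; exact pow_reg (B.h_rp 1)
    have hFxy : Fct Q N τ x y := ⟨p, hp, hpN, hpx, hpy, hpQ⟩
    have hMAF : M ∈ AF B τ 0 false 1 false := ⟨hM0, x, y, hsM, htM, (hFM τ x y).mpr hFxy⟩
    have hMJ : M ∈ Jus B (Φ τ) (5 ^ (n + 3)) := by
      by_contra hcon
      exact hv ⟨M, ⟨hMAF, hcon⟩, e, f, hNM⟩
    obtain ⟨M', ⟨hM'Φ, ⟨hM'0, a1, b1, ha1, hb1', hF1⟩, ⟨-, a2, b2, ha2, hb2', hF2⟩⟩, e', f', hMM'⟩ := hMJ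
    have hs0 : sv B 0 M' = sv B 0 M := by
      rw [hMM']; exact (sv_lower B hM'0 (by norm_num)).symm
    have ht1 : tv B 1 M' = tv B 1 M := by
      rw [hMM']; exact (tv_lower B hM'0 (by norm_num)).symm
    have hFM' : ∀ τ' a b, Fct Q M' τ' a b ↔ Fct Q N τ' a b := by
      intro τ' a b
      rw [← hFM, hMM']; exact (Fct_lower B 1 0 e' f' M' τ' a b).symm
    have ea1 : a1 = x := Rp5_uniq (by simpa using ha1) (by rw [hs0]; exact hsM)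
    have eb2 : b2 = y := Rp7_uniq (by simpa using hb2') (by rw [ht1]; exact htM)
    subst ea1; subst eb2
    have hFF : Fct Q M' = Fct Q N := by
      funext τ' a b; exact propext (hFM' τ' a b)
    refine ⟨b1, a2, hFF ▸ hF1, hFF ▸ hF2, ?_⟩
    rw [← hFF]
    refine sound B n (Φ τ) 2 M' _ _ (hΦ τ hτ) hM'Φ ?_
    intro i hi
    have hi' : i = 0 ∨ i = 1 := by omega
    rcases hi' with rfl | rfl
    · refine ⟨fun z hz => ?_, fun z hz => ?_⟩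
      · rw [asg_zero]; exact Rp5_uniq hz ha1
      · rw [asg_zero]; exact Rp7_uniq hz hb1'
    · refine ⟨fun z hz => ?_, fun z hz => ?_⟩
      · rw [asg_one]; exact Rp5_uniq hz ha2
      · rw [asg_one]; exact Rp7_uniq hz hb2'
  · exact sound B n G 0 N _ _ hG hgoal (fun i hi => by omega)

end Pool.Agent.helper72.MC
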